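import Pool.Agent.Work.MP_4eca41_an.A.Inv

/-! # Module Alex: Alexandrov's theorem

`lip_null`: a Lipschitz map `E → E` maps null sets to null sets (Hausdorff measure of dimension `dim E`:
`LipschitzWith.hausdorffMeasure_image_le`, and `volume` is a multiple of it (both are Haar measures:
`MeasureTheory.hausdorffMeasure_pi_real` through a basis, or `InnerProductSpace.volume_eq_hausdorff`-type
lemma); or `MeasureTheory.addHaar_image_eq_zero_of_...`; or directly with Vitali/cubes).
`alexandrov` PROOF. Let `N₁ = {y | R not differentiable at y}` (null, Rademacher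
`LipschitzWith.ae_differentiableAt`), `N₂ = {y | R differentiable at y, fderiv not bijective}`. `R '' N₁` is
null by `lip_null`, `R '' N₂` is null by `MeasureTheory.addHaar_image_eq_zero_of_det_fderiv_eq_zero`. Every
`x ∉ R '' N₁ ∪ R '' N₂` is `R (x + p)` (`sub_ex`, `res_surj`), and `exp_of_inv` applies. -/

namespace Pool.Agent.MP_4eca41.A

open Set Filter Topology Metric Asymptotics MeasureTheory
open scoped RealInnerProductSpace

variable {E : Type*} [NormedAddCommGroup E] [InnerProductSpace ℝ E] [FiniteDimensional ℝ E]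
  [MeasurableSpace E] [BorelSpace E]

theorem lip_null {g : E → E} {K : NNReal} (hg : LipschitzWith K g) {N : Set E}
    (hN : volume N = 0) : volume (g '' N) = 0 := by
  have h1 : (volume : Measure E) ≪ Measure.hausdorffMeasure (Module.finrank ℝ E : ℝ) :=
    Measure.absolutelyContinuous_isAddHaarMeasure _ _
  have h2 : Measure.hausdorffMeasure (Module.finrank ℝ E : ℝ) ≪ (volume : Measure E) :=
    Measure.absolutelyContinuous_isAddHaarMeasure _ _
  apply h1
  have h3 := hg.hausdorffMeasure_image_le
    (d := (Module.finrank ℝ E : ℝ)) (Nat.cast_nonneg _) N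
  rw [h2 hN, mul_zero] at h3
  exact le_antisymm h3 zero_le

theorem alexandrov {f : E → ℝ} (hf : ConvexOn ℝ univ f) :
    ∀ᵐ x ∂(volume : Measure E), ∃ p H, HasExp f x p H := by
  have h1 : volume (res f '' {y | ¬ DifferentiableAt ℝ (res f) y}) = 0 := by
    apply lip_null (res_lip hf)
    exact ae_iff.1 (res_lip hf).ae_differentiableAt
  have h2 : volume (res f '' {y | DifferentiableAt ℝ (res f) y ∧
      (fderiv ℝ (res f) y).det = 0}) = 0 := by
    apply addHaar_image_eq_zero_of_det_fderivWithin_eq_zero (f' := fderiv ℝ (res f))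
    · intro y hy
      exact hy.1.hasFDerivAt.hasFDerivWithinAt
    · intro y hy
      exact hy.2
  filter_upwards [measure_eq_zero_iff_ae_notMem.1 h1, measure_eq_zero_iff_ae_notMem.1 h2] with
    x hx1 hx2
  obtain ⟨p, hp⟩ := sub_ex hf x
  have h3 := res_surj hf hp
  have h4 : DifferentiableAt ℝ (res f) (x + p) := by
    by_contra h5
    exact hx1 ⟨x + p, h5, h3⟩
  have h5 : (fderiv ℝ (res f) (x + p)).det ≠ 0 := fun h6 => hx2 ⟨x + p, ⟨h4, h6⟩, h3⟩
  have h6 : Function.Bijective (fderiv ℝ (res f) (x + p)) := by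
    have h7 : IsUnit (fderiv ℝ (res f) (x + p) : E →ₗ[ℝ] E) := by
      rw [LinearMap.isUnit_iff_isUnit_det]
      exact isUnit_iff_ne_zero.2 h5
    exact (Module.End.isUnit_iff _).1 h7
  have h7 := exp_of_inv hf h4.hasFDerivAt h6
  rwa [h3] at h7

end Pool.Agent.MP_4eca41.A
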