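import Pool.Agent.Work.MP_4eca41_an.A.Prox

/-! # Module Conj: the conjugate of `F = f + |.|^2/2`

`cj f y = ⟪y, R y⟫ - f (R y) - |R y|^2/2` (`= sup_x (⟪y, x⟫ - F x)`).
`cj_le`: `⟪y, x⟫ - f x - |x|^2/2 ≤ cj f y` for all `x` (with `r = R y`, `IsSub f r (y - r)`:
`f x ≥ f r + ⟪y - r, x - r⟫`, and `|x|^2 ≥ |r|^2 + 2⟪r, x - r⟫`).
`cj_grad`: `cj f (y+k) - cj f y - ⟪R y, k⟫` is between `0` and `⟪R (y+k) - R y, k⟫ ≤ |k|^2` (use `cj_le` twice), so
`cj f` has gradient `R y` at `y`. -/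

namespace Pool.Agent.MP_4eca41.A

open Set Filter Topology Metric
open scoped RealInnerProductSpace

variable {E : Type*} [NormedAddCommGroup E] [InnerProductSpace ℝ E]

/-- the conjugate function of `f + |.|^2/2` -/
noncomputable def cj (f : E → ℝ) (y : E) : ℝ :=
  ⟪y, res f y⟫ - f (res f y) - ‖res f y‖ ^ 2 / 2

theorem cj_le [FiniteDimensional ℝ E] {f : E → ℝ} (hf : ConvexOn ℝ univ f) (x y : E) :
    ⟪y, x⟫ - f x - ‖x‖ ^ 2 / 2 ≤ cj f y := by
  have h1 := res_spec hf y x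
  set r := res f y with hr
  have h2 : 0 ≤ ‖x - r‖ ^ 2 := by positivity
  rw [@norm_sub_sq_real] at h2
  have h3 : ⟪y - r, x - r⟫ = ⟪y, x⟫ - ⟪y, r⟫ - ⟪x, r⟫ + ‖r‖ ^ 2 := by
    rw [inner_sub_left, inner_sub_right, inner_sub_right, real_inner_self_eq_norm_sq,
      real_inner_comm x r]
    ring
  rw [h3] at h1
  show _ ≤ ⟪y, res f y⟫ - f (res f y) - ‖res f y‖ ^ 2 / 2
  rw [← hr]
  linarith

theorem cj_grad [FiniteDimensional ℝ E] {f : E → ℝ} (hf : ConvexOn ℝ univ f) (y : E) :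
    HasFDerivAt (cj f) (innerSL ℝ (res f y)) y := by
  rw [hasFDerivAt_iff_isLittleO_nhds_zero]
  have h0 : (fun k : E => cj f (y + k) - cj f y - innerSL ℝ (res f y) k) =O[𝓝 0]
      fun k : E => ‖k‖ ^ 2 := by
    refine Asymptotics.IsBigO.of_bound 1 (Eventually.of_forall fun k => ?_)
    have h1 := cj_le hf (res f y) (y + k)
    have h2 := cj_le hf (res f (y + k)) y
    have h3 : cj f y = ⟪y, res f y⟫ - f (res f y) - ‖res f y‖ ^ 2 / 2 := rfl
    have h4 : cj f (y + k) = ⟪y + k, res f (y + k)⟫ - f (res f (y + k)) -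
        ‖res f (y + k)‖ ^ 2 / 2 := rfl
    have h5 : ⟪k, res f (y + k) - res f y⟫ ≤ ‖k‖ ^ 2 := by
      refine (real_inner_le_norm _ _).trans ?_
      have h6 := (res_lip hf).dist_le_mul (y + k) y
      rw [dist_eq_norm, dist_eq_norm, add_sub_cancel_left, NNReal.coe_one, one_mul] at h6
      rw [pow_two]
      exact mul_le_mul_of_nonneg_left h6 (norm_nonneg _)
    rw [inner_add_left] at h1 h4
    rw [inner_sub_right] at h5
    have h7 : innerSL ℝ (res f y) k = ⟪k, res f y⟫ := by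
      rw [innerSL_apply_apply, real_inner_comm]
    rw [h7, Real.norm_eq_abs, Real.norm_of_nonneg (by positivity : (0 : ℝ) ≤ ‖k‖ ^ 2), one_mul,
      abs_le]
    constructor
    · nlinarith [sq_nonneg ‖k‖]
    · linarith
  exact h0.trans_isLittleO (Asymptotics.isLittleO_norm_pow_id one_lt_two)

end Pool.Agent.MP_4eca41.A
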