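import Pool.Agent.Work.MP_4eca41_an.A.Meas

/-! # Module Cut: compact sets of constant rank

PROOF. `A` measurable, contained in `disc` (finite measure), the coefficients are continuous on `A`. The sets
`A0 = {z ∈ A | a = 0, c = 0}` (then `b = 0`), `A1 = {z ∈ A | 0 < a, a c = b^2}`, `A2 = {z ∈ A | 0 < a, b^2 < a c}`
are measurable (intersections of `A` with open or closed sets: `ContinuousOn` on a measurable set,
`ContinuousOn.measurable_piecewise` or `continuousOn_iff'`), and cover `A` up to the null set of `hn`. Inner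
regularity (`MeasurableSet.exists_isCompact_lt_add` / `exists_isCompact_diff_lt`) gives compact
`K_i ⊆ A_i` with `volume (A_i \ K_i) < ε/3`. -/

set_option autoImplicit false

namespace Pool.Agent.MP_4eca41.A

open Set MeasureTheory Filter Topology

theorem exp2_mono {f : ℝ × ℝ → ℝ} {A B : Set (ℝ × ℝ)} {J : Jets} (h : Exp2 f A J)
    (hBA : B ⊆ A) : Exp2 f B J := by
  refine ⟨h.cp.mono hBA, h.cs.mono hBA, h.ca.mono hBA, h.cb.mono hBA, h.cc.mono hBA,
    fun ε hε => ?_⟩
  obtain ⟨δ, hδ, h'⟩ := h.ex ε hε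
  exact ⟨δ, hδ, fun z hz => h' z (hBA hz)⟩

theorem cut {A : Set (ℝ × ℝ)} {J : Jets} (hA : MeasurableSet A) (hAd : A ⊆ disc)
    (ha : ContinuousOn J.a A) (hb : ContinuousOn J.b A) (hc : ContinuousOn J.c A)
    (hp : ∀ z ∈ A, 0 ≤ J.a z ∧ 0 ≤ J.c z ∧ J.b z ^ 2 ≤ J.a z * J.c z)
    (hn : ∀ᵐ z : ℝ × ℝ, z ∈ A → J.a z = 0 → J.c z = 0) {ε : ℝ} (hε : 0 < ε) :
    ∃ K0 K1 K2 : Set (ℝ × ℝ), IsCompact K0 ∧ IsCompact K1 ∧ IsCompact K2 ∧
      K0 ⊆ A ∧ K1 ⊆ A ∧ K2 ⊆ A ∧
      (∀ z ∈ K0, J.a z = 0 ∧ J.b z = 0 ∧ J.c z = 0) ∧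
      (∀ z ∈ K1, 0 < J.a z ∧ J.a z * J.c z = J.b z ^ 2) ∧
      (∀ z ∈ K2, 0 < J.a z ∧ J.b z ^ 2 < J.a z * J.c z) ∧
      volume (A \ (K0 ∪ K1 ∪ K2)) < ENNReal.ofReal ε := by
  classical
  set ma : ℝ × ℝ → ℝ := A.piecewise J.a 0 with hma
  set mb : ℝ × ℝ → ℝ := A.piecewise J.b 0 with hmb
  set mc : ℝ × ℝ → ℝ := A.piecewise J.c 0 with hmc
  have ma_m : Measurable ma := ha.measurable_piecewise continuousOn_const hA
  have mb_m : Measurable mb := hb.measurable_piecewise continuousOn_const hA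
  have mc_m : Measurable mc := hc.measurable_piecewise continuousOn_const hA
  have ea : ∀ z ∈ A, ma z = J.a z := fun z hz => Set.piecewise_eq_of_mem _ _ _ hz
  have eb : ∀ z ∈ A, mb z = J.b z := fun z hz => Set.piecewise_eq_of_mem _ _ _ hz
  have ec : ∀ z ∈ A, mc z = J.c z := fun z hz => Set.piecewise_eq_of_mem _ _ _ hz
  set A0 : Set (ℝ × ℝ) := A ∩ ({z | ma z = 0} ∩ {z | mc z = 0}) with hA0
  set A1 : Set (ℝ × ℝ) := A ∩ ({z | 0 < ma z} ∩ {z | ma z * mc z = mb z ^ 2}) with hA1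
  set A2 : Set (ℝ × ℝ) := A ∩ ({z | 0 < ma z} ∩ {z | mb z ^ 2 < ma z * mc z}) with hA2
  have m0 : MeasurableSet A0 := hA.inter
    ((measurableSet_eq_fun ma_m measurable_const).inter
      (measurableSet_eq_fun mc_m measurable_const))
  have m1 : MeasurableSet A1 := hA.inter
    ((measurableSet_lt measurable_const ma_m).inter
      (measurableSet_eq_fun (ma_m.mul mc_m) (mb_m.pow_const 2)))
  have m2 : MeasurableSet A2 := hA.inter
    ((measurableSet_lt measurable_const ma_m).inter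
      (measurableSet_lt (mb_m.pow_const 2) (ma_m.mul mc_m)))
  have hfin : volume A ≠ ⊤ := by
    have h1 : A ⊆ Metric.closedBall 0 1 := by
      intro z hz
      have hz' : z.1 ^ 2 + z.2 ^ 2 < 1 := hAd hz
      rw [Metric.mem_closedBall, dist_zero_right, Prod.norm_def, sup_le_iff, Real.norm_eq_abs,
        Real.norm_eq_abs]
      exact ⟨abs_le_of_sq_le_sq (by nlinarith [sq_nonneg z.2]) zero_le_one,
        abs_le_of_sq_le_sq (by nlinarith [sq_nonneg z.1]) zero_le_one⟩
    exact ((measure_mono h1).trans_lt measure_closedBall_lt_top).ne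
  have f0 : volume A0 ≠ ⊤ := ((measure_mono inter_subset_left).trans_lt hfin.lt_top).ne
  have f1 : volume A1 ≠ ⊤ := ((measure_mono inter_subset_left).trans_lt hfin.lt_top).ne
  have f2 : volume A2 ≠ ⊤ := ((measure_mono inter_subset_left).trans_lt hfin.lt_top).ne
  have hδ : ENNReal.ofReal (ε / 3) ≠ 0 := (ENNReal.ofReal_pos.2 (by positivity)).ne'
  obtain ⟨K0, k0, c0, l0⟩ := m0.exists_isCompact_diff_lt f0 hδ
  obtain ⟨K1, k1, c1, l1⟩ := m1.exists_isCompact_diff_lt f1 hδ
  obtain ⟨K2, k2, c2, l2⟩ := m2.exists_isCompact_diff_lt f2 hδ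
  refine ⟨K0, K1, K2, c0, c1, c2, k0.trans inter_subset_left, k1.trans inter_subset_left,
    k2.trans inter_subset_left, ?_, ?_, ?_, ?_⟩
  · intro z hz
    obtain ⟨hzA, h1, h2⟩ := k0 hz
    have h1' : J.a z = 0 := by rw [← ea z hzA]; exact h1
    have h2' : J.c z = 0 := by rw [← ec z hzA]; exact h2
    obtain ⟨-, -, h3⟩ := hp z hzA
    rw [h1', zero_mul] at h3
    exact ⟨h1', pow_eq_zero_iff (two_ne_zero) |>.1 (le_antisymm h3 (sq_nonneg _)), h2'⟩
  · intro z hz
    obtain ⟨hzA, h1, h2⟩ := k1 hz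
    have h1' : 0 < ma z := h1
    have h2' : ma z * mc z = mb z ^ 2 := h2
    rw [ea z hzA] at h1' h2'
    rw [ec z hzA, eb z hzA] at h2'
    exact ⟨h1', h2'⟩
  · intro z hz
    obtain ⟨hzA, h1, h2⟩ := k2 hz
    have h1' : 0 < ma z := h1
    have h2' : mb z ^ 2 < ma z * mc z := h2
    rw [ea z hzA] at h1' h2'
    rw [ec z hzA, eb z hzA] at h2'
    exact ⟨h1', h2'⟩
  · have hsub : A \ (K0 ∪ K1 ∪ K2) ⊆
        {z | ¬ (z ∈ A → J.a z = 0 → J.c z = 0)} ∪ ((A0 \ K0) ∪ ((A1 \ K1) ∪ (A2 \ K2))) := by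
      intro z hz
      obtain ⟨hzA, hzK⟩ := hz
      have hn0 : z ∉ K0 := fun h => hzK (Or.inl (Or.inl h))
      have hn1 : z ∉ K1 := fun h => hzK (Or.inl (Or.inr h))
      have hn2 : z ∉ K2 := fun h => hzK (Or.inr h)
      obtain ⟨p1, p2, p3⟩ := hp z hzA
      rcases p1.eq_or_lt with h | h
      · by_cases h' : J.c z = 0
        · refine Or.inr (Or.inl ⟨⟨hzA, ?_, ?_⟩, hn0⟩)
          · show ma z = 0
            rw [ea z hzA, ← h]
          · show mc z = 0
            rw [ec z hzA, h']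
        · exact Or.inl fun h'' => h' (h'' hzA h.symm)
      · rcases p3.eq_or_lt with h' | h'
        · refine Or.inr (Or.inr (Or.inl ⟨⟨hzA, ?_, ?_⟩, hn1⟩))
          · show 0 < ma z
            rw [ea z hzA]
            exact h
          · show ma z * mc z = mb z ^ 2
            rw [ea z hzA, ec z hzA, eb z hzA, h']
        · refine Or.inr (Or.inr (Or.inr ⟨⟨hzA, ?_, ?_⟩, hn2⟩))
          · show 0 < ma z
            rw [ea z hzA]
            exact h
          · show mb z ^ 2 < ma z * mc z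
            rw [ea z hzA, ec z hzA, eb z hzA]
            exact h'
    have hnull : volume {z | ¬ (z ∈ A → J.a z = 0 → J.c z = 0)} = 0 := hn
    calc volume (A \ (K0 ∪ K1 ∪ K2))
        ≤ volume {z | ¬ (z ∈ A → J.a z = 0 → J.c z = 0)} +
          (volume (A0 \ K0) + (volume (A1 \ K1) + volume (A2 \ K2))) := by
          refine (measure_mono hsub).trans ((measure_union_le _ _).trans ?_)
          gcongr
          refine (measure_union_le _ _).trans ?_
          gcongr
          exact measure_union_le _ _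
      _ = volume (A0 \ K0) + (volume (A1 \ K1) + volume (A2 \ K2)) := by
          rw [hnull, zero_add]
      _ < ENNReal.ofReal (ε / 3) + (ENNReal.ofReal (ε / 3) + ENNReal.ofReal (ε / 3)) :=
          ENNReal.add_lt_add l0 (ENNReal.add_lt_add l1 l2)
      _ = ENNReal.ofReal ε := by
          rw [← ENNReal.ofReal_add (by positivity) (by positivity),
            ← ENNReal.ofReal_add (by positivity) (by positivity)]
          congr 1
          ring

end Pool.Agent.MP_4eca41.A
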