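import Pool.Agent.Work.MP_4eca41_an.A.Meas

/-! # Module Ego: uniform expansions outside a small set (Egorov)

`ego_coef` PROOF. Egorov's theorem (`MeasureTheory.tendstoUniformlyOn_of_ae_tendsto` for the finite measure set
`disc`) for the five sequences of continuous functions of `Meas` (`lim_p`, `lim_s`, `lim_D2` for
`(1,0)`, `(0,1)`, `(1,1)`): outside a measurable set of small measure the convergence is uniform, so the limits
are continuous on the rest.
`ego_unif` PROOF. For `n ∈ ℕ` let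
`e_n z = sup over v ≠ 0 with rational coordinates and sq v ≤ 1/(n+1)^2 of min 1 (|f (z+v) - f z - J.q z v| / sq v)`,
a.e. measurable (countable supremum of a.e. measurable functions), and `e_n z → 0` for a.e. `z` (`ExpAt`). Egorov:
uniform convergence outside a small set; by continuity of `f` and `J.q z` in `v` the bound for rational `v` gives it for
all `v`. (Egorov needs `AEStronglyMeasurable`; use `AEMeasurable.aestronglyMeasurable`, or measurable
representatives `AEMeasurable.mk` and remove a null set.)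
`ego`: intersect the two sets; a measurable subset (the exceptional sets are measurable). -/

set_option autoImplicit false

namespace Pool.Agent.MP_4eca41.A

open Set MeasureTheory Filter Topology

private theorem ego_cont {f : ℝ × ℝ → ℝ} (hf : ConvexOn ℝ univ f) : Continuous f :=
  continuousOn_univ.1 (hf.continuousOn isOpen_univ)

private theorem ego_sq_cont : Continuous sq := by
  unfold sq
  fun_prop

private theorem ego_disc_open : IsOpen disc := isOpen_lt ego_sq_cont continuous_const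

private theorem ego_disc_meas : MeasurableSet disc := ego_disc_open.measurableSet

private theorem ego_disc_fin : volume disc ≠ ⊤ := by
  have h : disc ⊆ Icc ((-1 : ℝ), (-1 : ℝ)) ((1 : ℝ), (1 : ℝ)) := by
    intro z hz
    have h1 : z.1 ^ 2 + z.2 ^ 2 < 1 := hz
    have h2 : z.1 ^ 2 ≤ 1 := by nlinarith [sq_nonneg z.2]
    have h3 : z.2 ^ 2 ≤ 1 := by nlinarith [sq_nonneg z.1]
    have h4 := abs_le_of_sq_le_sq' (by linarith : z.1 ^ 2 ≤ 1 ^ 2) zero_le_one
    have h5 := abs_le_of_sq_le_sq' (by linarith : z.2 ^ 2 ≤ 1 ^ 2) zero_le_one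
    exact ⟨⟨h4.1, h5.1⟩, ⟨h4.2, h5.2⟩⟩
  exact ((measure_mono h).trans_lt isCompact_Icc.measure_lt_top).ne

private theorem ego_one {F : ℕ → ℝ × ℝ → ℝ} (hF : ∀ n, Continuous (F n)) {g : ℝ × ℝ → ℝ}
    (hg : ∀ᵐ z : ℝ × ℝ, Tendsto (fun n => F n z) atTop (𝓝 (g z))) {ε : ℝ} (hε : 0 < ε) :
    ∃ A : Set (ℝ × ℝ), A ⊆ disc ∧ MeasurableSet A ∧ volume (disc \ A) ≤ ENNReal.ofReal ε ∧
      ContinuousOn g A := by
  have hgm : AEMeasurable g :=
    aemeasurable_of_tendsto_metrizable_ae atTop (fun n => (hF n).measurable.aemeasurable) hg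
  have hgg : ∀ᵐ z : ℝ × ℝ, g z = hgm.mk g z := hgm.ae_eq_mk
  obtain ⟨t, htd, htm, htv, htu⟩ := tendstoUniformlyOn_of_ae_tendsto
    (μ := volume) (f := F) (g := hgm.mk g) (s := disc)
    (fun n => (hF n).stronglyMeasurable) hgm.measurable_mk.stronglyMeasurable ego_disc_meas
    ego_disc_fin (by
      filter_upwards [hg, hgg] with z h1 h2 _
      rw [← h2]
      exact h1) hε
  have hN0 : volume {z : ℝ × ℝ | ¬ g z = hgm.mk g z} = 0 := ae_iff.1 hgg
  set N : Set (ℝ × ℝ) := toMeasurable volume {z : ℝ × ℝ | ¬ g z = hgm.mk g z} with hNdef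
  have hNm : MeasurableSet N := measurableSet_toMeasurable _ _
  have hNv : volume N = 0 := by rw [hNdef, measure_toMeasurable, hN0]
  refine ⟨(disc \ t) \ N, fun z hz => hz.1.1, (ego_disc_meas.diff htm).diff hNm, ?_, ?_⟩
  · have hsub : disc \ ((disc \ t) \ N) ⊆ t ∪ N := by
      intro z hz
      by_contra hc
      rw [mem_union, not_or] at hc
      exact hz.2 ⟨⟨hz.1, hc.1⟩, hc.2⟩
    calc volume (disc \ ((disc \ t) \ N)) ≤ volume (t ∪ N) := measure_mono hsub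
      _ ≤ volume t + volume N := measure_union_le _ _
      _ ≤ ENNReal.ofReal ε := by rw [hNv, add_zero]; exact htv
  · have h1 : ContinuousOn (hgm.mk g) (disc \ t) :=
      htu.continuousOn (Eventually.of_forall fun n => (hF n).continuousOn).frequently
    refine (h1.mono diff_subset).congr ?_
    intro z hz
    by_contra hc
    exact hz.2 (subset_toMeasurable _ _ hc)

private theorem ego_inter {A B : Set (ℝ × ℝ)} {a b : ENNReal} (hA : volume (disc \ A) ≤ a)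
    (hB : volume (disc \ B) ≤ b) : volume (disc \ (A ∩ B)) ≤ a + b := by
  rw [diff_inter]
  exact (measure_union_le _ _).trans (add_le_add hA hB)

theorem ego_coef {f : ℝ × ℝ → ℝ} (hf : ConvexOn ℝ univ f) {J : Jets}
    (hJ : ∀ᵐ z : ℝ × ℝ, Ok f J z) {ε : ℝ} (hε : 0 < ε) :
    ∃ A : Set (ℝ × ℝ), A ⊆ disc ∧ MeasurableSet A ∧ volume (disc \ A) < ENNReal.ofReal ε ∧
      ContinuousOn J.p A ∧ ContinuousOn J.s A ∧ ContinuousOn J.a A ∧ ContinuousOn J.b A ∧
      ContinuousOn J.c A := by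
  have hfc := ego_cont hf
  have hD : ∀ (n : ℕ) (u : ℝ × ℝ), Continuous fun z : ℝ × ℝ =>
      ((n : ℝ) + 1) ^ 2 * D2 f ((1 / ((n : ℝ) + 1)) • u) z := by
    intro n u
    unfold D2
    fun_prop
  have hε6 : 0 < ε / 6 := by positivity
  obtain ⟨A1, h11, h12, h13, h14⟩ := ego_one
    (F := fun n z => ((n : ℝ) + 1) * (f (z + (1 / ((n : ℝ) + 1), 0)) - f z)) (g := J.p)
    (fun n => by fun_prop) (hJ.mono fun z h => lim_p h.1) hε6
  obtain ⟨A2, h21, h22, h23, h24⟩ := ego_one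
    (F := fun n z => ((n : ℝ) + 1) * (f (z + (0, 1 / ((n : ℝ) + 1))) - f z)) (g := J.s)
    (fun n => by fun_prop) (hJ.mono fun z h => lim_s h.1) hε6
  obtain ⟨A3, h31, h32, h33, h34⟩ := ego_one
    (F := fun n z => ((n : ℝ) + 1) ^ 2 * D2 f ((1 / ((n : ℝ) + 1)) • ((1 : ℝ), (0 : ℝ))) z)
    (g := J.a) (fun n => hD n _) (hJ.mono fun z h => by
      have h' := lim_D2 h.1 ((1 : ℝ), (0 : ℝ))
      have e : J.a z * ((1 : ℝ), (0 : ℝ)).1 ^ 2 + 2 * J.b z * ((1 : ℝ), (0 : ℝ)).1 *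
        ((1 : ℝ), (0 : ℝ)).2 + J.c z * ((1 : ℝ), (0 : ℝ)).2 ^ 2 = J.a z := by
        simp only
        ring
      rwa [e] at h') hε6
  obtain ⟨A4, h41, h42, h43, h44⟩ := ego_one
    (F := fun n z => ((n : ℝ) + 1) ^ 2 * D2 f ((1 / ((n : ℝ) + 1)) • ((0 : ℝ), (1 : ℝ))) z)
    (g := J.c) (fun n => hD n _) (hJ.mono fun z h => by
      have h' := lim_D2 h.1 ((0 : ℝ), (1 : ℝ))
      have e : J.a z * ((0 : ℝ), (1 : ℝ)).1 ^ 2 + 2 * J.b z * ((0 : ℝ), (1 : ℝ)).1 *
        ((0 : ℝ), (1 : ℝ)).2 + J.c z * ((0 : ℝ), (1 : ℝ)).2 ^ 2 = J.c z := by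
        simp only
        ring
      rwa [e] at h') hε6
  obtain ⟨A5, h51, h52, h53, h54⟩ := ego_one
    (F := fun n z => ((n : ℝ) + 1) ^ 2 * D2 f ((1 / ((n : ℝ) + 1)) • ((1 : ℝ), (1 : ℝ))) z)
    (g := fun z => J.a z + 2 * J.b z + J.c z) (fun n => hD n _) (hJ.mono fun z h => by
      have h' := lim_D2 h.1 ((1 : ℝ), (1 : ℝ))
      have e : J.a z * ((1 : ℝ), (1 : ℝ)).1 ^ 2 + 2 * J.b z * ((1 : ℝ), (1 : ℝ)).1 *
        ((1 : ℝ), (1 : ℝ)).2 + J.c z * ((1 : ℝ), (1 : ℝ)).2 ^ 2 = J.a z + 2 * J.b z + J.c z := by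
        simp only
        ring
      rwa [e] at h') hε6
  refine ⟨A1 ∩ (A2 ∩ (A3 ∩ (A4 ∩ A5))), fun z hz => h11 hz.1,
    h12.inter (h22.inter (h32.inter (h42.inter h52))), ?_, ?_, ?_, ?_, ?_, ?_⟩
  · have h6 := ego_inter h13 (ego_inter h23 (ego_inter h33 (ego_inter h43 h53)))
    refine h6.trans_lt ?_
    rw [← ENNReal.ofReal_add hε6.le hε6.le, ← ENNReal.ofReal_add hε6.le (by positivity),
      ← ENNReal.ofReal_add hε6.le (by positivity), ← ENNReal.ofReal_add hε6.le (by positivity)]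
    exact (ENNReal.ofReal_lt_ofReal_iff hε).2 (by linarith)
  · exact h14.mono fun z hz => hz.1
  · exact h24.mono fun z hz => hz.2.1
  · exact h34.mono fun z hz => hz.2.2.1
  · have ha : ContinuousOn J.a (A1 ∩ (A2 ∩ (A3 ∩ (A4 ∩ A5)))) := h34.mono fun z hz => hz.2.2.1
    have hc : ContinuousOn J.c (A1 ∩ (A2 ∩ (A3 ∩ (A4 ∩ A5)))) := h44.mono fun z hz => hz.2.2.2.1
    have hs : ContinuousOn (fun z => J.a z + 2 * J.b z + J.c z)
      (A1 ∩ (A2 ∩ (A3 ∩ (A4 ∩ A5)))) := h54.mono fun z hz => hz.2.2.2.2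
    have h7 : ContinuousOn (fun z => ((J.a z + 2 * J.b z + J.c z) - J.a z - J.c z) / 2)
      (A1 ∩ (A2 ∩ (A3 ∩ (A4 ∩ A5)))) := ((hs.sub ha).sub hc).div_const 2
    exact h7.congr fun z _ => by ring
  · exact h44.mono fun z hz => hz.2.2.2.1

private theorem ego_good {f : ℝ × ℝ → ℝ} (hfc : Continuous f) {J : Jets}
    (hJ : ∀ᵐ z : ℝ × ℝ, ExpAt f z (J.p z) (J.s z) (J.a z) (J.b z) (J.c z))
    (hp : Measurable J.p) (hs : Measurable J.s) (ha : Measurable J.a) (hb : Measurable J.b)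
    (hc : Measurable J.c) {ε : ENNReal} (hε : ε ≠ 0) :
    ∃ A : Set (ℝ × ℝ), A ⊆ disc ∧ MeasurableSet A ∧ volume (disc \ A) < ε ∧
      ∀ κ : ℝ, 0 < κ → ∃ δ : ℝ, 0 < δ ∧ ∀ z ∈ A, ∀ v : ℝ × ℝ, sq v ≤ δ ^ 2 →
        |f (z + v) - f z - J.q z v| ≤ κ * sq v := by
  let ρ : ℚ × ℚ → ℝ × ℝ := fun r => ((r.1 : ℝ), (r.2 : ℝ))
  have hρ : DenseRange ρ := Rat.denseRange_cast.prodMap Rat.denseRange_cast
  have hqm : ∀ v : ℝ × ℝ, Measurable fun z : ℝ × ℝ => |f (z + v) - f z - J.q z v| := by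
    intro v
    have h1 : Measurable fun z : ℝ × ℝ => f (z + v) := (hfc.comp (continuous_add_const v)).measurable
    have h2 : Measurable fun z : ℝ × ℝ => J.q z v := by
      unfold Jets.q
      fun_prop
    exact measurable_abs.comp ((h1.sub hfc.measurable).sub h2)
  let B : ℕ → ℕ → Set (ℝ × ℝ) := fun k n => {z | ∀ r : ℚ × ℚ, sq (ρ r) ≤ (1 / ((n : ℝ) + 1)) ^ 2 →
    |f (z + ρ r) - f z - J.q z (ρ r)| ≤ (1 / ((k : ℝ) + 1)) * sq (ρ r)}
  have hBm : ∀ k n, MeasurableSet (B k n) := by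
    intro k n
    have e : B k n = ⋂ r : ℚ × ℚ, {z | sq (ρ r) ≤ (1 / ((n : ℝ) + 1)) ^ 2 →
      |f (z + ρ r) - f z - J.q z (ρ r)| ≤ (1 / ((k : ℝ) + 1)) * sq (ρ r)} := by
      ext z
      simp only [B, mem_setOf_eq, mem_iInter]
    rw [e]
    refine MeasurableSet.iInter fun r => ?_
    by_cases h : sq (ρ r) ≤ (1 / ((n : ℝ) + 1)) ^ 2
    · simp only [h, forall_const]
      exact measurableSet_le (hqm _) measurable_const
    · simp only [h, false_imp_iff, setOf_true]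
      exact MeasurableSet.univ
  have hmono : ∀ k, Antitone fun n => disc \ B k n := by
    intro k n m hnm z hz
    refine ⟨hz.1, fun h => hz.2 ?_⟩
    intro r hr
    refine h r (hr.trans ?_)
    have h1 : (n : ℝ) ≤ m := Nat.cast_le.2 hnm
    have h2 : 1 / ((m : ℝ) + 1) ≤ 1 / ((n : ℝ) + 1) :=
      one_div_le_one_div_of_le (by positivity) (by linarith)
    exact pow_le_pow_left₀ (by positivity) h2 2
  have hzero : ∀ k, volume (⋂ n, disc \ B k n) = 0 := by
    intro k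
    refine measure_mono_null ?_ (ae_iff.1 hJ)
    intro z hz hE
    obtain ⟨δ, hδ, h1⟩ := hE (1 / ((k : ℝ) + 1)) (by positivity)
    obtain ⟨n, hn⟩ := exists_nat_one_div_lt hδ
    refine (mem_iInter.1 hz n).2 ?_
    intro r hr
    have h2 := h1 (ρ r) (hr.trans (pow_le_pow_left₀ (by positivity) hn.le 2))
    exact h2
  have htend : ∀ k, Tendsto (fun n => volume (disc \ B k n)) atTop (𝓝 0) := by
    intro k
    have h := tendsto_measure_iInter_atTop (μ := volume) (s := fun n => disc \ B k n)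
      (fun n => (ego_disc_meas.diff (hBm k n)).nullMeasurableSet) (hmono k)
      ⟨0, ne_top_of_le_ne_top ego_disc_fin (measure_mono diff_subset)⟩
    rw [hzero k] at h
    exact h
  obtain ⟨ε', hε', hsum⟩ := ENNReal.exists_pos_sum_of_countable' hε ℕ
  have hN : ∀ k, ∃ n, volume (disc \ B k n) < ε' k := fun k =>
    ((htend k).eventually (gt_mem_nhds (hε' k))).exists
  choose N hN using hN
  refine ⟨disc ∩ ⋂ k, B k (N k), inter_subset_left,
    ego_disc_meas.inter (MeasurableSet.iInter fun k => hBm k (N k)), ?_, ?_⟩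
  · have hsub : disc \ (disc ∩ ⋂ k, B k (N k)) ⊆ ⋃ k, disc \ B k (N k) := by
      intro z hz
      by_contra hc
      refine hz.2 ⟨hz.1, mem_iInter.2 fun k => ?_⟩
      by_contra h
      exact hc (mem_iUnion.2 ⟨k, hz.1, h⟩)
    calc volume (disc \ (disc ∩ ⋂ k, B k (N k))) ≤ volume (⋃ k, disc \ B k (N k)) :=
          measure_mono hsub
      _ ≤ ∑' k, volume (disc \ B k (N k)) := measure_iUnion_le _
      _ ≤ ∑' k, ε' k := ENNReal.tsum_le_tsum fun k => (hN k).le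
      _ < ε := hsum
  · intro κ hκ
    obtain ⟨k, hk⟩ := exists_nat_one_div_lt hκ
    refine ⟨1 / ((N k : ℝ) + 1) / 2, by positivity, ?_⟩
    intro z hz v hv
    have hzB : z ∈ B k (N k) := mem_iInter.1 hz.2 k
    have hU : IsOpen {v : ℝ × ℝ | sq v < (1 / ((N k : ℝ) + 1)) ^ 2} :=
      isOpen_lt ego_sq_cont continuous_const
    have hvU : v ∈ {v : ℝ × ℝ | sq v < (1 / ((N k : ℝ) + 1)) ^ 2} := by
      refine lt_of_le_of_lt hv ?_
      have h0 : (0 : ℝ) < 1 / ((N k : ℝ) + 1) := by positivity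
      nlinarith
    have hcl := hρ.open_subset_closure_inter hU hvU
    have hclosed : IsClosed {v : ℝ × ℝ | |f (z + v) - f z - J.q z v| ≤
        (1 / ((k : ℝ) + 1)) * sq v} := by
      refine isClosed_le ?_ (continuous_const.mul ego_sq_cont)
      have h1 : Continuous fun v : ℝ × ℝ => J.q z v := by
        unfold Jets.q
        fun_prop
      exact (((hfc.comp (continuous_const_add z)).sub continuous_const).sub h1).abs
    have hmem : v ∈ {v : ℝ × ℝ | |f (z + v) - f z - J.q z v| ≤ (1 / ((k : ℝ) + 1)) * sq v} := by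
      refine closure_minimal ?_ hclosed hcl
      rintro w ⟨hw1, r, rfl⟩
      exact hzB r (le_of_lt hw1)
    have hsq : 0 ≤ sq v := by
      unfold sq
      positivity
    exact (mem_setOf_eq ▸ hmem).trans (mul_le_mul_of_nonneg_right hk.le hsq)

theorem ego_unif {f : ℝ × ℝ → ℝ} (hf : ConvexOn ℝ univ f) {J : Jets}
    (hJ : ∀ᵐ z : ℝ × ℝ, Ok f J z) (hp : AEMeasurable J.p) (hs : AEMeasurable J.s)
    (ha : AEMeasurable J.a) (hb : AEMeasurable J.b) (hc : AEMeasurable J.c) {ε : ℝ}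
    (hε : 0 < ε) :
    ∃ A : Set (ℝ × ℝ), A ⊆ disc ∧ MeasurableSet A ∧ volume (disc \ A) < ENNReal.ofReal ε ∧
      ∀ κ : ℝ, 0 < κ → ∃ δ : ℝ, 0 < δ ∧ ∀ z ∈ A, ∀ v : ℝ × ℝ, sq v ≤ δ ^ 2 →
        |f (z + v) - f z - J.q z v| ≤ κ * sq v := by
  let J' : Jets := ⟨hp.mk J.p, hs.mk J.s, ha.mk J.a, hb.mk J.b, hc.mk J.c⟩
  have hJJ : ∀ᵐ z : ℝ × ℝ, J.p z = J'.p z ∧ J.s z = J'.s z ∧ J.a z = J'.a z ∧
      J.b z = J'.b z ∧ J.c z = J'.c z := by
    filter_upwards [hp.ae_eq_mk, hs.ae_eq_mk, ha.ae_eq_mk, hb.ae_eq_mk, hc.ae_eq_mk]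
      with z h1 h2 h3 h4 h5
    exact ⟨h1, h2, h3, h4, h5⟩
  have hexp : ∀ᵐ z : ℝ × ℝ, ExpAt f z (J'.p z) (J'.s z) (J'.a z) (J'.b z) (J'.c z) := by
    filter_upwards [hJ, hJJ] with z h1 h2
    rw [← h2.1, ← h2.2.1, ← h2.2.2.1, ← h2.2.2.2.1, ← h2.2.2.2.2]
    exact h1.1
  obtain ⟨A, hA1, hA2, hA3, hA4⟩ := ego_good (ego_cont hf) (J := J') hexp hp.measurable_mk
    hs.measurable_mk ha.measurable_mk hb.measurable_mk hc.measurable_mk
    (ε := ENNReal.ofReal ε) (ENNReal.ofReal_pos.2 hε).ne'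
  set N : Set (ℝ × ℝ) := toMeasurable volume {z : ℝ × ℝ | ¬ (J.p z = J'.p z ∧ J.s z = J'.s z ∧
    J.a z = J'.a z ∧ J.b z = J'.b z ∧ J.c z = J'.c z)} with hNdef
  have hNm : MeasurableSet N := measurableSet_toMeasurable _ _
  have hNv : volume N = 0 := by rw [hNdef, measure_toMeasurable, ae_iff.1 hJJ]
  refine ⟨A \ N, fun z hz => hA1 hz.1, hA2.diff hNm, ?_, ?_⟩
  · have hsub : disc \ (A \ N) ⊆ (disc \ A) ∪ N := by
      intro z hz
      by_contra hcon
      rw [mem_union, not_or] at hcon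
      refine hz.2 ⟨?_, hcon.2⟩
      by_contra h
      exact hcon.1 ⟨hz.1, h⟩
    calc volume (disc \ (A \ N)) ≤ volume ((disc \ A) ∪ N) := measure_mono hsub
      _ ≤ volume (disc \ A) + volume N := measure_union_le _ _
      _ < ENNReal.ofReal ε := by rw [hNv, add_zero]; exact hA3
  · intro κ hκ
    obtain ⟨δ, hδ, h⟩ := hA4 κ hκ
    refine ⟨δ, hδ, ?_⟩
    intro z hz v hv
    have h1 := h z hz.1 v hv
    have h2 : J.p z = J'.p z ∧ J.s z = J'.s z ∧ J.a z = J'.a z ∧ J.b z = J'.b z ∧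
        J.c z = J'.c z := by
      by_contra hcon
      exact hz.2 (subset_toMeasurable _ _ hcon)
    have h3 : J.q z v = J'.q z v := by
      unfold Jets.q
      rw [h2.1, h2.2.1, h2.2.2.1, h2.2.2.2.1, h2.2.2.2.2]
    rw [h3]
    exact h1

theorem ego {f : ℝ × ℝ → ℝ} (hf : ConvexOn ℝ univ f) {J : Jets}
    (hJ : ∀ᵐ z : ℝ × ℝ, Ok f J z) (hp : AEMeasurable J.p) (hs : AEMeasurable J.s)
    (ha : AEMeasurable J.a) (hb : AEMeasurable J.b) (hc : AEMeasurable J.c) {ε : ℝ}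
    (hε : 0 < ε) :
    ∃ A : Set (ℝ × ℝ), A ⊆ disc ∧ MeasurableSet A ∧ volume (disc \ A) < ENNReal.ofReal ε ∧
      Exp2 f A J := by
  have hε2 : 0 < ε / 2 := by positivity
  obtain ⟨A, hA1, hA2, hA3, h1, h2, h3, h4, h5⟩ := ego_coef hf hJ hε2
  obtain ⟨B, hB1, hB2, hB3, hB4⟩ := ego_unif hf hJ hp hs ha hb hc hε2
  refine ⟨A ∩ B, fun z hz => hA1 hz.1, hA2.inter hB2, ?_, ?_⟩
  · calc volume (disc \ (A ∩ B)) ≤ volume (disc \ A) + volume (disc \ B) := ego_inter le_rfl le_rfl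
      _ < ENNReal.ofReal (ε / 2) + ENNReal.ofReal (ε / 2) := ENNReal.add_lt_add hA3 hB3
      _ = ENNReal.ofReal ε := by
        rw [← ENNReal.ofReal_add hε2.le hε2.le, add_halves]
  · refine ⟨h1.mono inter_subset_left, h2.mono inter_subset_left, h3.mono inter_subset_left,
      h4.mono inter_subset_left, h5.mono inter_subset_left, ?_⟩
    intro κ hκ
    obtain ⟨δ, hδ, h⟩ := hB4 κ hκ
    exact ⟨δ, hδ, fun z hz => h z hz.2⟩

end Pool.Agent.MP_4eca41.A
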