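import Pool.Agent.Work.MP_4eca41_an.A.LipC

/-! # Module ExtG: global extension with quadratic growth

PROOF. `L` from `lip_cb`. `f1 z = ⨅ w : cb 0 r, (f0 w + L ‖z - w‖)` (norm of `ℝ × ℝ`; the set is nonempty and compact,
`f0` bounded on it). `f1` is convex on the plane (jointly convex function of `(z,w)`, `cb 0 r` convex: for
`w, w'` almost optimal for `z, z'` take `s w + t w'`), `f1 = f0` on `cb 0 r` (Lipschitz),
`f1 z ≤ f0 0 + L ‖z‖`. Let `M` be a bound with `-M ≤ f0` on `cb 0 r`; `f z = max (f1 z) (sq z - r^2 - M)`: convex;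
equal to `f0` on `cb 0 r`; `sq z - r^2 - M ≤ f z`; and `f z ≤ C (1 + sq z)`. -/

set_option autoImplicit false

namespace Pool.Agent.MP_4eca41.A

open Set MeasureTheory

private theorem zero_mem_cb (r : ℝ) : (0 : ℝ × ℝ) ∈ cb 0 r := by
  show sq ((0 : ℝ × ℝ) - 0) ≤ r ^ 2
  unfold sq
  simp
  positivity

private theorem norm_le_one {z : ℝ × ℝ} {r : ℝ} (hr0 : 0 < r) (hr : r < 1) (h : z ∈ cb 0 r) :
    ‖z‖ ≤ 1 := by
  have h1 : sq (z - 0) ≤ r ^ 2 := h
  rw [sub_zero] at h1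
  unfold sq at h1
  have h2 : r ^ 2 ≤ 1 := by nlinarith
  rw [Prod.norm_def, max_le_iff, Real.norm_eq_abs, Real.norm_eq_abs]
  constructor
  · rw [← sq_le_one_iff_abs_le_one]
    nlinarith [sq_nonneg z.2]
  · rw [← sq_le_one_iff_abs_le_one]
    nlinarith [sq_nonneg z.1]

private theorem norm_le_sq (z : ℝ × ℝ) : ‖z‖ ≤ 1 + sq z := by
  unfold sq
  rw [Prod.norm_def, max_le_iff, Real.norm_eq_abs, Real.norm_eq_abs]
  constructor
  · nlinarith [sq_nonneg (|z.1| - 1), sq_abs z.1, sq_nonneg z.2, abs_nonneg z.1]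
  · nlinarith [sq_nonneg (|z.2| - 1), sq_abs z.2, sq_nonneg z.1, abs_nonneg z.2]

private theorem sq_nn (z : ℝ × ℝ) : 0 ≤ sq z := by
  unfold sq
  positivity

private theorem convex_sq (c : ℝ) : ConvexOn ℝ univ fun z : ℝ × ℝ => sq z - c := by
  refine ⟨convex_univ, fun z _ w _ a b ha hb hab => ?_⟩
  have hb' : b = 1 - a := by linarith
  subst hb'
  show sq (a • z + (1 - a) • w) - c ≤ a * (sq z - c) + (1 - a) * (sq w - c)
  unfold sq
  simp only [Prod.fst_add, Prod.snd_add, Prod.smul_fst, Prod.smul_snd, smul_eq_mul]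
  have h1 : 0 ≤ a * (1 - a) := mul_nonneg ha hb
  nlinarith [mul_nonneg h1 (sq_nonneg (z.1 - w.1)), mul_nonneg h1 (sq_nonneg (z.2 - w.2))]

theorem ext_glob {f0 : ℝ × ℝ → ℝ} (h0 : ConvexOn ℝ disc f0) {r : ℝ} (hr0 : 0 < r) (hr : r < 1) :
    ∃ f : ℝ × ℝ → ℝ, ConvexOn ℝ univ f ∧ Gr f ∧ ∀ z ∈ cb 0 r, f z = f0 z := by
  obtain ⟨L, hL0, hL⟩ := lip_cb h0 hr0.le hr
  have hz : (0 : ℝ × ℝ) ∈ cb 0 r := zero_mem_cb r
  have hne : Nonempty (cb (0 : ℝ × ℝ) r) := ⟨⟨0, hz⟩⟩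
  have hlow : ∀ w ∈ cb 0 r, f0 0 - L ≤ f0 w := by
    intro w hw
    have h1 := hL w hw 0 hz
    rw [sub_zero] at h1
    have h2 := norm_le_one hr0 hr hw
    have h3 : L * ‖w‖ ≤ L * 1 := mul_le_mul_of_nonneg_left h2 hL0
    have h4 := (abs_le.1 h1).1
    linarith
  have hbdd : ∀ z : ℝ × ℝ, BddBelow (range fun w : cb (0 : ℝ × ℝ) r => f0 w + L * ‖z - w‖) := by
    intro z
    refine ⟨f0 0 - L, ?_⟩
    rintro _ ⟨w, rfl⟩
    have h1 := hlow w w.2
    have h2 : 0 ≤ L * ‖z - w‖ := mul_nonneg hL0 (norm_nonneg _)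
    show f0 0 - L ≤ f0 w + L * ‖z - w‖
    linarith
  obtain ⟨f1, hf1⟩ : ∃ f1 : ℝ × ℝ → ℝ, ∀ z, f1 z = ⨅ w : cb (0 : ℝ × ℝ) r, (f0 w + L * ‖z - w‖) :=
    ⟨_, fun _ => rfl⟩
  have hle : ∀ z, ∀ w ∈ cb 0 r, f1 z ≤ f0 w + L * ‖z - w‖ := by
    intro z w hw
    rw [hf1]
    exact ciInf_le (hbdd z) ⟨w, hw⟩
  have heq : ∀ z ∈ cb 0 r, f1 z = f0 z := by
    intro z hz'
    refine le_antisymm ?_ ?_
    · have := hle z z hz'
      rwa [sub_self, norm_zero, mul_zero, add_zero] at this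
    · rw [hf1]
      refine le_ciInf fun w => ?_
      have h1 := (abs_le.1 (hL z hz' w w.2)).2
      linarith
  have hconv : ConvexOn ℝ univ f1 := by
    refine ⟨convex_univ, fun z _ z' _ a b ha hb hab => ?_⟩
    show f1 (a • z + b • z') ≤ a * f1 z + b * f1 z'
    refine le_of_forall_pos_le_add fun ε hε => ?_
    obtain ⟨⟨w, hw⟩, h1⟩ := exists_lt_of_ciInf_lt (show (⨅ w : cb (0 : ℝ × ℝ) r,
      (f0 w + L * ‖z - w‖)) < f1 z + ε by rw [← hf1]; linarith)
    obtain ⟨⟨w', hw'⟩, h2⟩ := exists_lt_of_ciInf_lt (show (⨅ w : cb (0 : ℝ × ℝ) r,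
      (f0 w + L * ‖z' - w‖)) < f1 z' + ε by rw [← hf1]; linarith)
    have h3 := hle (a • z + b • z') (a • w + b • w') (cb_convex 0 r hw hw' ha hb hab)
    have h4 := h0.2 (cb_sub hr0.le hr hw) (cb_sub hr0.le hr hw') ha hb hab
    simp only [smul_eq_mul] at h4
    have h5 : ‖a • z + b • z' - (a • w + b • w')‖ ≤ a * ‖z - w‖ + b * ‖z' - w'‖ := by
      have e : a • z + b • z' - (a • w + b • w') = a • (z - w) + b • (z' - w') := by
        rw [smul_sub, smul_sub]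
        abel
      rw [e]
      refine (norm_add_le _ _).trans ?_
      rw [norm_smul, norm_smul, Real.norm_of_nonneg ha, Real.norm_of_nonneg hb]
    have h6 := mul_le_mul_of_nonneg_left h5 hL0
    have h7 := mul_le_mul_of_nonneg_left h1.le ha
    have h8 := mul_le_mul_of_nonneg_left h2.le hb
    have h9 : a * ε + b * ε = ε := by rw [← add_mul, hab, one_mul]
    nlinarith
  refine ⟨fun z => max (f1 z) (sq z - (r ^ 2 + (L - f0 0))), ?_, ?_, ?_⟩
  · exact hconv.sup (convex_sq _)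
  · refine ⟨1, |f0 0| + L + 1 + r ^ 2 + |L - f0 0|, one_pos, fun z => ⟨?_, ?_⟩⟩
    · refine le_trans ?_ (le_max_right _ _)
      have h1 := le_abs_self (L - f0 0)
      have h2 := abs_nonneg (f0 0)
      linarith
    · have hs := sq_nn z
      have h1 := le_abs_self (f0 0)
      have h2 := abs_nonneg (f0 0)
      have h3 := neg_abs_le (L - f0 0)
      have h4 := abs_nonneg (L - f0 0)
      have h5 : (0 : ℝ) ≤ r ^ 2 := by positivity
      refine max_le ?_ ?_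
      · have h6 := hle z 0 hz
        rw [sub_zero] at h6
        have h7 := mul_le_mul_of_nonneg_left (norm_le_sq z) hL0
        nlinarith [mul_nonneg h2 hs, mul_nonneg h4 hs, mul_nonneg h5 hs]
      · nlinarith [mul_nonneg h2 hs, mul_nonneg h4 hs, mul_nonneg h5 hs, mul_nonneg hL0 hs]
  · intro z hz'
    show max (f1 z) (sq z - (r ^ 2 + (L - f0 0))) = f0 z
    rw [heq z hz', max_eq_left]
    have h1 : sq (z - 0) ≤ r ^ 2 := hz'
    rw [sub_zero] at h1
    have h2 := hlow z hz'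
    linarith

end Pool.Agent.MP_4eca41.A
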