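import Pool.Agent.Work.MP_4eca41_an.A.Symm

/-! # Module Inv: second order expansion of `f` at `x = R y` if `DR(y)` is invertible

SETTING: `HasFDerivAt (res f) A y`, `A` bijective, `x = R y`.
`inv_near` PROOF. For `h` small there is `k` with `R (y + k) = x + h` (a subgradient `q` of `f` at `x + h`,
`k = x + h + q - y`, `res_surj`). CLAIM: every such `k` satisfies `|k| ≤ C |h|` if `|h| < δ`. As `A` is invertible,
`|A k| ≥ c |k|`, and for `|k| ≤ ρ`: `|R (y+k) - x| ≥ (c/2) |k|`. So `|h| < c ρ / 2` excludes `c|k|/2 > |h|` with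
`|k| ≤ ρ`. Case `|k| > ρ`: let `k' = ρ k / |k|`. By firm nonexpansiveness (`res_firm`) for `y + k'`, `y + k` and for
`y + k'`, `y`: put `a = R (y + k') - x`, `b = h = R (y + k) - x`; `⟪k', a⟫ ≥ |a|^2` and
`0 ≤ ⟪k - k', b - a⟫`; `k - k' = s k'` with `s > 0`, so `⟪k', b⟫ ≥ ⟪k', a⟫ ≥ |a|^2 ≥ (c ρ / 2)^2`, while
`⟪k', b⟫ ≤ ρ |h|`: impossible for `|h| < c^2 ρ / 4`.
`exp_of_inv` PROOF. For `h` small take `k` as above: `|k| ≤ C |h|`; `h = R (y+k) - R y = A k + o(|k|)`, so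
`k = A⁻¹ h + o(|h|)`. By definition of `cj` and `res` (`F = f + |.|^2/2`, equality in `cj_le` at `x = R y`):
`F (x + h) = ⟪y + k, x + h⟫ - cj f (y + k)`, `F x = ⟪y, x⟫ - cj f y`; with `cj_exp`:
`F (x+h) - F x = ⟪y, h⟫ + ⟪k, h⟫ - ⟪A k, k⟫/2 + o(|h|^2) = ⟪y, h⟫ + ⟪A⁻¹ h, h⟫ / 2 + o(|h|^2)`.
Subtract `|x+h|^2/2 - |x|^2/2 = ⟪x, h⟫ + |h|^2/2`: `p = y - x`, `H = A⁻¹ - 1`, symmetric; `H ≥ 0` since
`|A u|^2 ≤ ⟪u, A u⟫` with `u = A⁻¹ v` gives `|v|^2 ≤ ⟪A⁻¹ v, v⟫`. -/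

namespace Pool.Agent.MP_4eca41.A

open Set Filter Topology Metric Asymptotics
open scoped RealInnerProductSpace

variable {E : Type*} [NormedAddCommGroup E] [InnerProductSpace ℝ E]

private theorem ex_inv [FiniteDimensional ℝ E] {A : E →L[ℝ] E} (hb : Function.Bijective A) :
    ∃ B : E →L[ℝ] E, (∀ v, A (B v) = v) ∧ (∀ v, B (A v) = v) := by
  let e := (LinearEquiv.ofBijective (A : E →ₗ[ℝ] E) hb).toContinuousLinearEquiv
  refine ⟨(e.symm : E →L[ℝ] E), fun v => ?_, fun v => ?_⟩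
  · exact e.apply_symm_apply v
  · exact e.symm_apply_apply v

theorem inv_near [FiniteDimensional ℝ E] {f : E → ℝ} (hf : ConvexOn ℝ univ f) {y : E}
    {A : E →L[ℝ] E} (hA : HasFDerivAt (res f) A y) (hb : Function.Bijective A) :
    ∃ C > 0, ∃ δ > 0, ∀ h k : E, ‖h‖ < δ → res f (y + k) = res f y + h → ‖k‖ ≤ C * ‖h‖ := by
  obtain ⟨B, hAB, hBA⟩ := ex_inv hb
  set M := ‖B‖ + 1 with hM
  have hM0 : 0 < M := by positivity
  have hkA : ∀ k, ‖k‖ ≤ M * ‖A k‖ := by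
    intro k
    have h1 : ‖B (A k)‖ ≤ ‖B‖ * ‖A k‖ := B.le_opNorm _
    rw [hBA] at h1
    refine h1.trans (mul_le_mul_of_nonneg_right (by rw [hM]; linarith) (norm_nonneg _))
  have h1 := hasFDerivAt_iff_isLittleO_nhds_zero.1 hA
  have h2 := Asymptotics.isLittleO_iff.1 h1 (show (0 : ℝ) < 1 / (2 * M) by positivity)
  obtain ⟨ρ', hρ', hρ2⟩ := Metric.eventually_nhds_iff.1 h2
  set ρ := ρ' / 2 with hρ
  have hρ0 : 0 < ρ := by positivity
  have hlow : ∀ k, ‖k‖ ≤ ρ → ‖k‖ ≤ 2 * M * ‖res f (y + k) - res f y‖ := by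
    intro k hk
    have h3 := hρ2 (y := k) (by rw [dist_zero_right]; linarith)
    have h4 := hkA k
    have h5 : ‖A k‖ ≤ ‖res f (y + k) - res f y‖ + 1 / (2 * M) * ‖k‖ := by
      have h6 : A k = (res f (y + k) - res f y) - (res f (y + k) - res f y - A k) := by abel
      calc ‖A k‖ = ‖(res f (y + k) - res f y) - (res f (y + k) - res f y - A k)‖ := by rw [← h6]
        _ ≤ _ := norm_sub_le _ _
        _ ≤ _ := by linarith
    have h7 : M * ‖A k‖ ≤ M * ‖res f (y + k) - res f y‖ + ‖k‖ / 2 := by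
      have h8 := mul_le_mul_of_nonneg_left h5 hM0.le
      have h9 : M * (‖res f (y + k) - res f y‖ + 1 / (2 * M) * ‖k‖) =
          M * ‖res f (y + k) - res f y‖ + ‖k‖ / 2 := by
        field_simp
      linarith
    linarith
  refine ⟨2 * M, by positivity, ρ / (4 * M ^ 2), by positivity, fun h k hh hk => ?_⟩
  by_cases hkρ : ‖k‖ ≤ ρ
  · have h3 := hlow k hkρ
    rw [hk, add_sub_cancel_left] at h3
    exact h3
  · exfalso
    push Not at hkρ
    have hk0 : 0 < ‖k‖ := hρ0.trans hkρ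
    set k' : E := (ρ / ‖k‖) • k with hk'
    have hnk' : ‖k'‖ = ρ := by
      rw [hk', norm_smul, Real.norm_of_nonneg (by positivity)]
      field_simp
    have h3 := hlow k' hnk'.le
    set a : E := res f (y + k') - res f y with ha
    have h4 : ‖a‖ ^ 2 ≤ ⟪k', a⟫ := by
      have h5 := res_firm hf (y + k') y
      rw [add_sub_cancel_left] at h5
      exact h5
    have h6 : 0 ≤ ⟪k - k', h - a⟫ := by
      have h7 := res_firm hf (y + k) (y + k')
      have e1 : y + k - (y + k') = k - k' := by abel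
      have e2 : res f (y + k) - res f (y + k') = h - a := by
        rw [hk, ha]
        abel
      rw [e1, e2] at h7
      exact (sq_nonneg _).trans h7
    have h8 : k - k' = (‖k‖ / ρ - 1) • k' := by
      have e0 : (‖k‖ / ρ) • k' = k := by
        rw [hk', smul_smul]
        have e1 : ‖k‖ / ρ * (ρ / ‖k‖) = 1 := by field_simp
        rw [e1, one_smul]
      rw [sub_smul, one_smul, e0]
    rw [h8, inner_smul_left] at h6
    have h9 : 0 < ‖k‖ / ρ - 1 := by
      rw [sub_pos, lt_div_iff₀ hρ0, one_mul]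
      exact hkρ
    have h10 : 0 ≤ ⟪k', h - a⟫ := by
      have h11 : 0 ≤ (‖k‖ / ρ - 1) * ⟪k', h - a⟫ := h6
      by_contra hneg
      push Not at hneg
      have := mul_neg_of_pos_of_neg h9 hneg
      linarith
    rw [inner_sub_right] at h10
    have h12 : ⟪k', h⟫ ≤ ρ * ‖h‖ := by
      have := real_inner_le_norm k' h
      rwa [hnk'] at this
    rw [hnk'] at h3
    have h13 : ρ / (2 * M) ≤ ‖a‖ := by
      rw [div_le_iff₀ (by positivity)]
      linarith
    have h14 : (ρ / (2 * M)) ^ 2 ≤ ‖a‖ ^ 2 := pow_le_pow_left₀ (by positivity) h13 2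
    have h15 : ρ * ‖h‖ < ρ * (ρ / (4 * M ^ 2)) := mul_lt_mul_of_pos_left hh hρ0
    have h16 : ρ * (ρ / (4 * M ^ 2)) = (ρ / (2 * M)) ^ 2 := by
      field_simp
      ring
    linarith

/-- second order expansion: `f (x + h) = f x + ⟪p, h⟫ + ⟪H h, h⟫ / 2 + o(|h|^2)` -/
def HasExp (f : E → ℝ) (x p : E) (H : E →L[ℝ] E) : Prop :=
  (∀ u v, ⟪H u, v⟫ = ⟪u, H v⟫) ∧ (∀ u, 0 ≤ ⟪u, H u⟫) ∧
    (fun h => f (x + h) - f x - ⟪p, h⟫ - ⟪H h, h⟫ / 2) =o[𝓝 0] (fun h => ‖h‖ ^ 2)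

theorem exp_of_inv [FiniteDimensional ℝ E] {f : E → ℝ} (hf : ConvexOn ℝ univ f) {y : E}
    {A : E →L[ℝ] E} (hA : HasFDerivAt (res f) A y) (hb : Function.Bijective A) :
    ∃ p H, HasExp f (res f y) p H := by
  obtain ⟨B, hAB, hBA⟩ := ex_inv hb
  have hsA := res_symm hf hA
  have hsB : ∀ u v, ⟪B u, v⟫ = ⟪u, B v⟫ := by
    intro u v
    have h1 := hsA (B u) (B v)
    rw [hAB, hAB] at h1
    exact h1.symm
  refine ⟨y - res f y, B - ContinuousLinearMap.id ℝ E, ?_, ?_, ?_⟩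
  · intro u v
    rw [ContinuousLinearMap.sub_apply, ContinuousLinearMap.sub_apply,
      ContinuousLinearMap.id_apply, ContinuousLinearMap.id_apply, inner_sub_left, inner_sub_right,
      hsB]
  · intro u
    have h1 := res_pos hf hA (B u)
    rw [hAB] at h1
    rw [ContinuousLinearMap.sub_apply, ContinuousLinearMap.id_apply, inner_sub_right,
      real_inner_self_eq_norm_sq, ← hsB]
    linarith
  · obtain ⟨C, hC, δ, hδ, hnear⟩ := inv_near hf hA hb
    rw [Asymptotics.isLittleO_iff]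
    intro c hc
    set M := ‖B‖ + 1 with hM
    have hM0 : 0 < M := by positivity
    have hε1 : (0 : ℝ) < c / (2 * C ^ 2) := by positivity
    set ε2 : ℝ := min 1 (c / (M * C ^ 2)) with hε2d
    have hε2 : 0 < ε2 := lt_min one_pos (by positivity)
    have e1 := Asymptotics.isLittleO_iff.1 (cj_exp hf hA) hε1
    have e2 := Asymptotics.isLittleO_iff.1 (hasFDerivAt_iff_isLittleO_nhds_zero.1 hA) hε2
    obtain ⟨η, hη, hη2⟩ := Metric.eventually_nhds_iff.1 (e1.and e2)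
    rw [Metric.eventually_nhds_iff]
    refine ⟨min δ (η / C), lt_min hδ (by positivity), fun h hh => ?_⟩
    rw [dist_zero_right] at hh
    obtain ⟨q, hq⟩ := sub_ex hf (res f y + h)
    set k : E := res f y + h + q - y with hk
    have hyk : y + k = res f y + h + q := by
      rw [hk]
      abel
    have hres : res f (y + k) = res f y + h := by
      rw [hyk]
      exact res_surj hf hq
    have hkC := hnear h k (hh.trans_le (min_le_left _ _)) hres
    have hkη : ‖k‖ < η := by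
      refine hkC.trans_lt ?_
      have h3 := hh.trans_le (min_le_right _ _)
      rw [lt_div_iff₀ hC] at h3
      linarith
    obtain ⟨h4, h5⟩ := hη2 (y := k) (by rw [dist_zero_right]; exact hkη)
    set x := res f y with hx
    have hcj1 : cj f (y + k) = ⟪y + k, x + h⟫ - f (x + h) - ‖x + h‖ ^ 2 / 2 := by
      unfold cj
      rw [hres]
    have hcj2 : cj f y = ⟪y, x⟫ - f x - ‖x‖ ^ 2 / 2 := rfl
    rw [hres, add_sub_cancel_left] at h5
    set w := h - A k with hw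
    have hh' : h = A k + w := by
      rw [hw]
      abel
    have hBh : B h = k + B w := by
      rw [hh', map_add, hBA]
    have hsw : ⟪B w, A k⟫ = ⟪w, k⟫ := by
      rw [hsB, hBA]
    have hBw : |⟪B w, w⟫| ≤ M * ‖w‖ ^ 2 := by
      refine (abs_real_inner_le_norm _ _).trans ?_
      have h6 := B.le_opNorm w
      have h7 : ‖B w‖ * ‖w‖ ≤ (‖B‖ * ‖w‖) * ‖w‖ := mul_le_mul_of_nonneg_right h6 (norm_nonneg _)
      have h8 : ‖B‖ ≤ M := by rw [hM]; linarith
      nlinarith [sq_nonneg ‖w‖]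
    have key : f (x + h) - f x - ⟪y - x, h⟫ -
        ⟪(B - ContinuousLinearMap.id ℝ E) h, h⟫ / 2 =
        -(cj f (y + k) - cj f y - ⟪x, k⟫ - ⟪A k, k⟫ / 2) - ⟪B w, w⟫ / 2 := by
      rw [hcj1, hcj2, ContinuousLinearMap.sub_apply, ContinuousLinearMap.id_apply,
        inner_sub_left, inner_sub_left, real_inner_self_eq_norm_sq, norm_add_sq_real, hBh,
        inner_add_left (𝕜 := ℝ) y k, inner_add_right, inner_add_right, inner_add_left k (B w)]
      have e3 : ⟪k, h⟫ = ⟪k, A k⟫ + ⟪k, w⟫ := by rw [← inner_add_right, ← hh']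
      have e4 : ⟪B w, h⟫ = ⟪w, k⟫ + ⟪B w, w⟫ := by
        rw [← hsw, ← inner_add_right, ← hh']
      have e5 : ⟪w, k⟫ = ⟪k, w⟫ := real_inner_comm _ _
      have e6 : ⟪A k, k⟫ = ⟪k, A k⟫ := real_inner_comm _ _
      have e7 : ⟪x, k⟫ = ⟪k, x⟫ := real_inner_comm _ _
      rw [e3, e4, e5, e6, e7]
      ring
    rw [key, Real.norm_eq_abs, Real.norm_of_nonneg (sq_nonneg ‖h‖)]
    rw [Real.norm_eq_abs, Real.norm_of_nonneg (sq_nonneg ‖k‖)] at h4
    have h9 : ‖k‖ ^ 2 ≤ C ^ 2 * ‖h‖ ^ 2 := by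
      rw [← mul_pow]
      exact pow_le_pow_left₀ (norm_nonneg _) hkC 2
    have h10 : ‖w‖ ^ 2 ≤ ε2 ^ 2 * ‖k‖ ^ 2 := by
      rw [← mul_pow]
      exact pow_le_pow_left₀ (norm_nonneg _) h5 2
    have h11 : ε2 ^ 2 ≤ c / (M * C ^ 2) := by
      have h12 : ε2 ≤ 1 := min_le_left _ _
      have h13 : ε2 ≤ c / (M * C ^ 2) := min_le_right _ _
      nlinarith
    have h14 : M * ‖w‖ ^ 2 ≤ c * ‖h‖ ^ 2 := by
      calc M * ‖w‖ ^ 2 ≤ M * (c / (M * C ^ 2) * (C ^ 2 * ‖h‖ ^ 2)) := by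
            refine mul_le_mul_of_nonneg_left (h10.trans ?_) hM0.le
            exact mul_le_mul h11 h9 (sq_nonneg _) (by positivity)
        _ = c * ‖h‖ ^ 2 := by field_simp
    have h15 : c / (2 * C ^ 2) * ‖k‖ ^ 2 ≤ c / 2 * ‖h‖ ^ 2 := by
      calc c / (2 * C ^ 2) * ‖k‖ ^ 2 ≤ c / (2 * C ^ 2) * (C ^ 2 * ‖h‖ ^ 2) :=
            mul_le_mul_of_nonneg_left h9 hε1.le
        _ = c / 2 * ‖h‖ ^ 2 := by field_simp
    have h16 := abs_le.1 h4
    have h17 := abs_le.1 hBw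
    rw [abs_le]
    constructor
    · linarith [h16.2, h17.2]
    · linarith [h16.1, h17.1]

end Pool.Agent.MP_4eca41.A
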