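import Pool.Agent.Work.MP_4eca41_an.Defs

/-! # Module LipC: a convex function on the disc is Lipschitz on smaller closed discs

PROOF. `disc` is open, `cb 0 r` is compact and contained in `disc` (`r < 1`). `ConvexOn.locallyLipschitzOn`
(finite dimension, open set) and compactness of `cb 0 r`: `LocallyLipschitzOn` on a compact set gives
a Lipschitz constant (`LocallyLipschitzOn.exists_lipschitzOnWith_of_compact` if it exists). Otherwise: `f0` is
bounded by `M` on `cb 0 ((1+r)/2)` (continuous, compact), and the classical argument on lines gives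
`|f0 z - f0 w| ≤ (4M / (1 - r)) |z - w|`-type bounds (`ConvexOn.lipschitzOnWith_of_abs_le` for balls, and a chain
along the segment from `z` to `w`). -/

set_option autoImplicit false

namespace Pool.Agent.MP_4eca41.A

open Set MeasureTheory

private theorem sq_cont : Continuous sq := by
  unfold sq
  fun_prop

private theorem sq_conv : ConvexOn ℝ univ sq := by
  have h1 : ConvexOn ℝ univ fun x : ℝ => x ^ 2 := Even.convexOn_pow even_two
  have h2 : ConvexOn ℝ univ fun z : ℝ × ℝ => z.1 ^ 2 :=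
    (h1.comp_linearMap (LinearMap.fst ℝ ℝ ℝ))
  have h3 : ConvexOn ℝ univ fun z : ℝ × ℝ => z.2 ^ 2 :=
    (h1.comp_linearMap (LinearMap.snd ℝ ℝ ℝ))
  exact h2.add h3

private theorem norm_le_sqrt {v : ℝ × ℝ} {r : ℝ} (hr : 0 ≤ r) (h : sq v ≤ r ^ 2) : ‖v‖ ≤ r := by
  unfold sq at h
  rw [Prod.norm_def, sup_le_iff, Real.norm_eq_abs, Real.norm_eq_abs]
  exact ⟨abs_le_of_sq_le_sq (by nlinarith [sq_nonneg v.2]) hr,
    abs_le_of_sq_le_sq (by nlinarith [sq_nonneg v.1]) hr⟩

theorem disc_open : IsOpen disc := by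
  exact isOpen_lt sq_cont continuous_const

theorem disc_convex : Convex ℝ disc := by
  have h1 := sq_conv.convex_lt 1
  have h2 : disc = {x | x ∈ univ ∧ sq x < 1} := by
    ext z
    simp [disc]
  rw [h2]
  exact h1

theorem cb_compact (z : ℝ × ℝ) (r : ℝ) : IsCompact (cb z r) := by
  rw [Metric.isCompact_iff_isClosed_bounded]
  refine ⟨isClosed_le (sq_cont.comp (continuous_id.sub continuous_const)) continuous_const, ?_⟩
  refine (Metric.isBounded_closedBall (x := z) (r := |r|)).subset fun w hw => ?_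
  rw [Metric.mem_closedBall, dist_eq_norm]
  have hw' : sq (w - z) ≤ r ^ 2 := hw
  exact norm_le_sqrt (abs_nonneg r) (by rwa [sq_abs])

theorem cb_convex (z : ℝ × ℝ) (r : ℝ) : Convex ℝ (cb z r) := by
  have h1 := sq_conv.convex_le (r ^ 2)
  have h2 : cb z r = (fun x => (-z) + x) ⁻¹' {x | x ∈ univ ∧ sq x ≤ r ^ 2} := by
    ext w
    simp only [cb, mem_setOf_eq, mem_preimage, mem_univ, true_and]
    rw [neg_add_eq_sub]
  rw [h2]
  exact h1.translate_preimage_right (-z)

theorem cb_sub {r : ℝ} (hr0 : 0 ≤ r) (hr : r < 1) : cb 0 r ⊆ disc := by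
  intro z hz
  have hz' : sq (z - 0) ≤ r ^ 2 := hz
  rw [sub_zero] at hz'
  show sq z < 1
  nlinarith

theorem lip_cb {f0 : ℝ × ℝ → ℝ} (h0 : ConvexOn ℝ disc f0) {r : ℝ} (hr0 : 0 ≤ r) (hr : r < 1) :
    ∃ L : ℝ, 0 ≤ L ∧ ∀ z ∈ cb 0 r, ∀ w ∈ cb 0 r, |f0 z - f0 w| ≤ L * ‖z - w‖ := by
  have h1 : LocallyLipschitzOn (cb 0 r) f0 :=
    (h0.locallyLipschitzOn disc_open).mono (cb_sub hr0 hr)
  obtain ⟨K, hK⟩ := h1.exists_lipschitzOnWith_of_compact (cb_compact 0 r)
  refine ⟨K, K.2, fun z hz w hw => ?_⟩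
  have h2 := hK.dist_le_mul z hz w hw
  rw [Real.dist_eq, dist_eq_norm] at h2
  exact h2

/-- the discs `cb 0 r` exhaust the disc in measure -/
theorem disc_meas {ε : ℝ} (hε : 0 < ε) :
    ∃ r : ℝ, 0 < r ∧ r < 1 ∧ volume (disc \ cb 0 r) < ENNReal.ofReal ε := by
  let r : ℕ → ℝ := fun n => 1 - 1 / ((n : ℝ) + 2)
  have hr0 : ∀ n, 0 < r n := by
    intro n
    have h1 : (0 : ℝ) < (n : ℝ) + 2 := by positivity
    have h2 : 1 / ((n : ℝ) + 2) < 1 := by
      rw [div_lt_one h1]
      linarith [(Nat.cast_nonneg n : (0 : ℝ) ≤ n)]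
    show 0 < 1 - 1 / ((n : ℝ) + 2)
    linarith
  have hr1 : ∀ n, r n < 1 := by
    intro n
    have h1 : (0 : ℝ) < 1 / ((n : ℝ) + 2) := by positivity
    show 1 - 1 / ((n : ℝ) + 2) < 1
    linarith
  have hrt : Filter.Tendsto r Filter.atTop (nhds 1) := by
    have h1 : Filter.Tendsto (fun n : ℕ => 1 / ((n : ℝ) + 2)) Filter.atTop (nhds 0) := by
      have h2 : Filter.Tendsto (fun n : ℕ => (n : ℝ) + 2) Filter.atTop Filter.atTop :=
        Filter.tendsto_atTop_add_const_right _ _ tendsto_natCast_atTop_atTop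
      refine h2.inv_tendsto_atTop.congr fun n => ?_
      show ((n : ℝ) + 2)⁻¹ = 1 / ((n : ℝ) + 2)
      rw [one_div]
    have h3 := h1.const_sub 1
    rw [sub_zero] at h3
    exact h3
  have hmono : Antitone fun n => disc \ cb 0 (r n) := by
    intro n m hnm z hz
    refine ⟨hz.1, fun h => hz.2 ?_⟩
    have h1 : sq (z - 0) ≤ r n ^ 2 := h
    show sq (z - 0) ≤ r m ^ 2
    have h2 : r n ≤ r m := by
      show 1 - 1 / ((n : ℝ) + 2) ≤ 1 - 1 / ((m : ℝ) + 2)
      have h3 : (n : ℝ) ≤ m := by exact_mod_cast hnm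
      have h4 : 1 / ((m : ℝ) + 2) ≤ 1 / ((n : ℝ) + 2) := by
        apply one_div_le_one_div_of_le (by positivity)
        linarith
      linarith
    have h3 := hr0 n
    nlinarith
  have hmeas : ∀ n, NullMeasurableSet (disc \ cb 0 (r n)) := fun n =>
    (disc_open.measurableSet.diff (cb_compact 0 (r n)).isClosed.measurableSet).nullMeasurableSet
  have hfin : volume (disc \ cb 0 (r 0)) ≠ ⊤ := by
    have h1 : disc ⊆ cb 0 1 := by
      intro z hz
      have hz' : sq z < 1 := hz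
      show sq (z - 0) ≤ 1 ^ 2
      rw [sub_zero]
      linarith
    exact ((measure_mono (diff_subset.trans h1)).trans_lt (cb_compact 0 1).measure_lt_top).ne
  have ht := tendsto_measure_iInter_atTop (μ := volume) hmeas hmono ⟨0, hfin⟩
  have hempty : ⋂ n, disc \ cb 0 (r n) = ∅ := by
    rw [Set.eq_empty_iff_forall_notMem]
    intro z hz
    rw [mem_iInter] at hz
    have hz1 : sq z < 1 := (hz 0).1
    have h1 : Filter.Tendsto (fun n => r n ^ 2) Filter.atTop (nhds 1) := by
      have h2 := hrt.pow 2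
      rwa [one_pow] at h2
    obtain ⟨n, hn⟩ := (h1.eventually (lt_mem_nhds hz1)).exists
    refine (hz n).2 ?_
    show sq (z - 0) ≤ r n ^ 2
    rw [sub_zero]
    exact hn.le
  rw [hempty, measure_empty] at ht
  obtain ⟨n, hn⟩ := (ht.eventually (gt_mem_nhds (ENNReal.ofReal_pos.2 hε))).exists
  exact ⟨r n, hr0 n, hr1 n, hn⟩

end Pool.Agent.MP_4eca41.A
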