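import Pool.Agent.Work.MP_4eca41_an.Defs

/-! # Module RotL: rotations

`rot θ` is linear, `sq (rot θ z) = sq z`, inverse `rot (-θ)`, determinant one, so it preserves the measure
(`MeasureTheory.Measure.addHaar_preimage_linearMap` / `addHaar_image_linearMap`, determinant of the matrix; or
`LinearMap` `map_linearMap_addHaar_eq_smul_addHaar`).
`exp_rot`: substitute `v ↦ rot θ v` in the expansion of `F` at `rot θ z`. -/

set_option autoImplicit false

namespace Pool.Agent.MP_4eca41.A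

open Set MeasureTheory

theorem rot_add (θ : ℝ) (z w : ℝ × ℝ) : rot θ (z + w) = rot θ z + rot θ w := by
  ext
  · simp only [rot, Prod.fst_add, Prod.snd_add]
    ring
  · simp only [rot, Prod.fst_add, Prod.snd_add]
    ring

theorem rot_smul (θ c : ℝ) (z : ℝ × ℝ) : rot θ (c • z) = c • rot θ z := by
  ext
  · simp only [rot, Prod.smul_fst, Prod.smul_snd, smul_eq_mul]
    ring
  · simp only [rot, Prod.smul_fst, Prod.smul_snd, smul_eq_mul]
    ring

theorem sq_rot (θ : ℝ) (z : ℝ × ℝ) : sq (rot θ z) = sq z := by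
  unfold sq rot
  linear_combination (z.1 ^ 2 + z.2 ^ 2) * Real.cos_sq_add_sin_sq θ

theorem rot_inv (θ : ℝ) (z : ℝ × ℝ) : rot (-θ) (rot θ z) = z := by
  ext
  · simp only [rot, Real.cos_neg, Real.sin_neg]
    linear_combination z.1 * Real.cos_sq_add_sin_sq θ
  · simp only [rot, Real.cos_neg, Real.sin_neg]
    linear_combination z.2 * Real.cos_sq_add_sin_sq θ

theorem rot_inv' (θ : ℝ) (z : ℝ × ℝ) : rot θ (rot (-θ) z) = z := by
  ext
  · simp only [rot, Real.cos_neg, Real.sin_neg]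
    linear_combination z.1 * Real.cos_sq_add_sin_sq θ
  · simp only [rot, Real.cos_neg, Real.sin_neg]
    linear_combination z.2 * Real.cos_sq_add_sin_sq θ

theorem rot_cont (θ : ℝ) : Continuous (rot θ) := by
  unfold rot
  fun_prop

theorem rot_mp (θ : ℝ) : MeasurePreserving (rot θ) volume volume := by
  refine ⟨(rot_cont θ).measurable, ?_⟩
  obtain ⟨L, hL⟩ : ∃ L : ℝ × ℝ →ₗ[ℝ] ℝ × ℝ, L = Matrix.toLin (Module.Basis.finTwoProd ℝ)
      (Module.Basis.finTwoProd ℝ) !![Real.cos θ, -Real.sin θ; Real.sin θ, Real.cos θ] := ⟨_, rfl⟩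
  have h1 : rot θ = ⇑L := by
    funext z
    rw [hL, Matrix.toLin_finTwoProd_apply]
    ext
    · simp only [rot]
      ring
    · simp only [rot]
  have h2 : LinearMap.det L = 1 := by
    rw [hL, LinearMap.det_toLin, Matrix.det_fin_two_of]
    linear_combination Real.cos_sq_add_sin_sq θ
  rw [h1, Measure.map_linearMap_addHaar_eq_smul_addHaar _ (by rw [h2]; exact one_ne_zero), h2]
  simp

theorem rot_convex {F : ℝ × ℝ → ℝ} (hF : ConvexOn ℝ univ F) (θ : ℝ) :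
    ConvexOn ℝ univ fun z => F (rot θ z) := by
  refine ⟨convex_univ, fun x _ y _ a b ha hb hab => ?_⟩
  have h := hF.2 (mem_univ (rot θ x)) (mem_univ (rot θ y)) ha hb hab
  simp only
  rw [rot_add, rot_smul, rot_smul]
  exact h

theorem rot_gr {F : ℝ × ℝ → ℝ} (hF : Gr F) (θ : ℝ) : Gr fun z => F (rot θ z) := by
  obtain ⟨c, C, hc, h⟩ := hF
  refine ⟨c, C, hc, fun z => ?_⟩
  have h1 := h (rot θ z)
  rw [sq_rot] at h1
  exact h1

theorem exp_rot {F : ℝ × ℝ → ℝ} {θ : ℝ} {z : ℝ × ℝ} {p s a b c : ℝ}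
    (h : ExpAt F (rot θ z) p s a b c) :
    ExpAt (fun z => F (rot θ z)) z (p * Real.cos θ + s * Real.sin θ)
      (-p * Real.sin θ + s * Real.cos θ)
      (a * Real.cos θ ^ 2 + 2 * b * Real.cos θ * Real.sin θ + c * Real.sin θ ^ 2)
      ((c - a) * Real.cos θ * Real.sin θ + b * (Real.cos θ ^ 2 - Real.sin θ ^ 2))
      (a * Real.sin θ ^ 2 - 2 * b * Real.cos θ * Real.sin θ + c * Real.cos θ ^ 2) := by
  intro ε hε
  obtain ⟨δ, hδ, h1⟩ := h ε hε
  refine ⟨δ, hδ, fun v hv => ?_⟩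
  have h2 := h1 (rot θ v) (by rw [sq_rot]; exact hv)
  rw [sq_rot, ← rot_add] at h2
  have e : p * (rot θ v).1 + s * (rot θ v).2 +
      (a * (rot θ v).1 ^ 2 + 2 * b * (rot θ v).1 * (rot θ v).2 + c * (rot θ v).2 ^ 2) / 2 =
      (p * Real.cos θ + s * Real.sin θ) * v.1 + (-p * Real.sin θ + s * Real.cos θ) * v.2 +
      ((a * Real.cos θ ^ 2 + 2 * b * Real.cos θ * Real.sin θ + c * Real.sin θ ^ 2) * v.1 ^ 2 +
      2 * ((c - a) * Real.cos θ * Real.sin θ + b * (Real.cos θ ^ 2 - Real.sin θ ^ 2)) * v.1 * v.2 +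
      (a * Real.sin θ ^ 2 - 2 * b * Real.cos θ * Real.sin θ + c * Real.cos θ ^ 2) * v.2 ^ 2) / 2 := by
    simp only [rot]
    ring
  rw [e] at h2
  exact h2

private theorem exp_lem {A B : ℝ} (h : ∀ ε : ℝ, 0 < ε → ∃ δ : ℝ, 0 < δ ∧ ∀ t : ℝ, 0 < t →
    t ≤ δ → |t * A + t ^ 2 * B| ≤ ε * t ^ 2) : A = 0 ∧ B = 0 := by
  have hA : A = 0 := by
    by_contra hne
    have hpos : 0 < |A| := abs_pos.2 hne
    obtain ⟨δ, hδ, h1⟩ := h 1 one_pos
    obtain ⟨t, ht⟩ : ∃ t : ℝ, t = min δ (|A| / (2 * (|B| + 1))) := ⟨_, rfl⟩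
    have ht0 : 0 < t := by rw [ht]; exact lt_min hδ (by positivity)
    have h2 := h1 t ht0 (by rw [ht]; exact min_le_left _ _)
    have h3 : t * (2 * (|B| + 1)) ≤ |A| := by
      rw [← le_div_iff₀ (by positivity), ht]
      exact min_le_right _ _
    have h4 : t * |A| ≤ |t * A + t ^ 2 * B| + t ^ 2 * |B| := by
      calc t * |A| = |t * A| := by rw [abs_mul, abs_of_pos ht0]
        _ = |(t * A + t ^ 2 * B) - t ^ 2 * B| := by ring_nf
        _ ≤ |t * A + t ^ 2 * B| + |t ^ 2 * B| := abs_sub _ _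
        _ = |t * A + t ^ 2 * B| + t ^ 2 * |B| := by
            rw [abs_mul, abs_of_pos (show (0 : ℝ) < t ^ 2 by positivity)]
    have h5 : t * |A| ≤ t * (t * (|B| + 1)) := by
      refine h4.trans ?_
      nlinarith
    have h6 : |A| ≤ t * (|B| + 1) := le_of_mul_le_mul_left h5 ht0
    nlinarith
  refine ⟨hA, ?_⟩
  by_contra hne
  have hpos : 0 < |B| := abs_pos.2 hne
  obtain ⟨δ, hδ, h1⟩ := h (|B| / 2) (by positivity)
  have h2 := h1 δ hδ le_rfl
  rw [hA, mul_zero, zero_add, abs_mul, abs_of_pos (show (0 : ℝ) < δ ^ 2 by positivity)] at h2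
  have h3 : 0 < δ ^ 2 * |B| := by positivity
  nlinarith

/-- the coefficients are unique -/
theorem exp_unique {F : ℝ × ℝ → ℝ} {z : ℝ × ℝ} {p s a b c p' s' a' b' c' : ℝ}
    (h : ExpAt F z p s a b c) (h' : ExpAt F z p' s' a' b' c') :
    p = p' ∧ s = s' ∧ a = a' ∧ b = b' ∧ c = c' := by
  have hu : ∀ u : ℝ × ℝ, sq u ≤ 2 → (p - p') * u.1 + (s - s') * u.2 = 0 ∧
      ((a - a') * u.1 ^ 2 + 2 * (b - b') * u.1 * u.2 + (c - c') * u.2 ^ 2) / 2 = 0 := by
    intro u hu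
    refine exp_lem fun ε hε => ?_
    obtain ⟨δ₁, hδ₁, h1⟩ := h (ε / 4) (by positivity)
    obtain ⟨δ₂, hδ₂, h2⟩ := h' (ε / 4) (by positivity)
    refine ⟨min δ₁ δ₂ / 2, by positivity, fun t ht htδ => ?_⟩
    have hsq : sq (t • u) = t ^ 2 * sq u := by
      simp only [sq, Prod.smul_fst, Prod.smul_snd, smul_eq_mul]
      ring
    have hsq0 : 0 ≤ sq u := by unfold sq; positivity
    have hle : ∀ δ : ℝ, 0 < δ → min δ₁ δ₂ ≤ δ → sq (t • u) ≤ δ ^ 2 := fun δ hδ hm => by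
      rw [hsq]
      have h3 : t ≤ δ / 2 := htδ.trans (by linarith)
      have h4 : t ^ 2 ≤ (δ / 2) ^ 2 := pow_le_pow_left₀ ht.le h3 2
      calc t ^ 2 * sq u ≤ (δ / 2) ^ 2 * 2 := mul_le_mul h4 hu hsq0 (by positivity)
        _ ≤ δ ^ 2 := by nlinarith [sq_nonneg δ]
    have e1 := h1 (t • u) (hle δ₁ hδ₁ (min_le_left _ _))
    have e2 := h2 (t • u) (hle δ₂ hδ₂ (min_le_right _ _))
    rw [hsq] at e1 e2
    simp only [Prod.smul_fst, Prod.smul_snd, smul_eq_mul] at e1 e2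
    have e3 : t * ((p - p') * u.1 + (s - s') * u.2) +
        t ^ 2 * (((a - a') * u.1 ^ 2 + 2 * (b - b') * u.1 * u.2 + (c - c') * u.2 ^ 2) / 2) =
        (F (z + t • u) - F z - (p' * (t * u.1) + s' * (t * u.2) +
          (a' * (t * u.1) ^ 2 + 2 * b' * (t * u.1) * (t * u.2) + c' * (t * u.2) ^ 2) / 2)) -
        (F (z + t • u) - F z - (p * (t * u.1) + s * (t * u.2) +
          (a * (t * u.1) ^ 2 + 2 * b * (t * u.1) * (t * u.2) + c * (t * u.2) ^ 2) / 2)) := by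
      ring
    rw [e3]
    refine (abs_sub _ _).trans ((add_le_add e2 e1).trans ?_)
    have h5 : t ^ 2 * sq u ≤ t ^ 2 * 2 := mul_le_mul_of_nonneg_left hu (by positivity)
    nlinarith
  obtain ⟨x1, x2⟩ := hu (1, 0) (by norm_num [sq])
  obtain ⟨y1, y2⟩ := hu (0, 1) (by norm_num [sq])
  obtain ⟨z1, z2⟩ := hu (1, 1) (by norm_num [sq])
  simp only at x1 x2 y1 y2 z1 z2
  refine ⟨by linarith, by linarith, by linarith, by linarith, by linarith⟩

end Pool.Agent.MP_4eca41.A
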