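import Pool.Agent.Work.MP_4eca41_an.A.Plane
import Pool.Agent.Work.MP_4eca41_an.A.RotL

/-! # Module Meas: almost everywhere measurable coefficients

`jets_ex` PROOF. Choose the coefficients at the points where they exist (`alex_plane`), `0` elsewhere. For
every such point `z`: `n (f (z + (1/n,0)) - f z) → p`, `n (f (z + (0,1/n)) - f z) → s`,
`n^2 D2 f (1/n,0) z → a`, `n^2 D2 f (0,1/n) z → c`, `n^2 D2 f (1/n,1/n) z → a + 2b + c` (insert the expansions; the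
error is `ε n^2 sq v`). The functions on the left are continuous in `z` (`f` is continuous:
`ConvexOn.continuousOn`), so the limits are a.e. measurable (`aemeasurable_of_tendsto_metrizable_ae`). -/

set_option autoImplicit false

namespace Pool.Agent.MP_4eca41.A

open Set MeasureTheory Filter Topology

/-- the expansion of `f` with the coefficients `J` at the point `z`, with a nonnegative Hessian -/
def Ok (f : ℝ × ℝ → ℝ) (J : Jets) (z : ℝ × ℝ) : Prop :=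
  ExpAt f z (J.p z) (J.s z) (J.a z) (J.b z) (J.c z) ∧ 0 ≤ J.a z ∧ 0 ≤ J.c z ∧
    J.b z ^ 2 ≤ J.a z * J.c z

private theorem tau_lim : Tendsto (fun n : ℕ => 1 / ((n : ℝ) + 1)) atTop (𝓝[≠] 0) := by
  rw [tendsto_nhdsWithin_iff]
  refine ⟨tendsto_one_div_add_atTop_nhds_zero_nat, Eventually.of_forall fun n => ?_⟩
  have : (0 : ℝ) < 1 / ((n : ℝ) + 1) := by positivity
  exact this.ne'

private theorem lim_dir {f : ℝ × ℝ → ℝ} {z : ℝ × ℝ} {p s a b c : ℝ} (h : ExpAt f z p s a b c)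
    (u : ℝ × ℝ) : Tendsto (fun τ : ℝ => (f (z + τ • u) - f z) / τ) (𝓝[≠] 0)
      (𝓝 (p * u.1 + s * u.2)) := by
  rw [Metric.tendsto_nhdsWithin_nhds]
  intro ε hε
  obtain ⟨δ, hδ, hh⟩ := h 1 one_pos
  set Q := a * u.1 ^ 2 + 2 * b * u.1 * u.2 + c * u.2 ^ 2 with hQ
  have hsq : 0 ≤ sq u := by unfold sq; positivity
  have hM : 0 < |Q| / 2 + sq u + 1 := by positivity
  refine ⟨min (ε / (|Q| / 2 + sq u + 1)) (δ / (sq u + 1)), lt_min (by positivity) (by positivity), ?_⟩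
  intro τ hτ hd
  have hτ0 : τ ≠ 0 := hτ
  rw [Real.dist_eq, sub_zero] at hd
  have hτp : 0 < |τ| := abs_pos.2 hτ0
  have d1 : |τ| * (|Q| / 2 + sq u + 1) < ε := by
    have := lt_of_lt_of_le hd (min_le_left _ _)
    rwa [lt_div_iff₀ hM] at this
  have d2 : |τ| * (sq u + 1) < δ := by
    have := lt_of_lt_of_le hd (min_le_right _ _)
    rwa [lt_div_iff₀ (by positivity)] at this
  have e1 : sq (τ • u) = τ ^ 2 * sq u := by
    unfold sq
    simp only [Prod.smul_fst, Prod.smul_snd, smul_eq_mul]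
    ring
  have h1 := hh (τ • u) (by
    rw [e1, ← sq_abs τ]
    have h2 : |τ| ^ 2 * sq u ≤ (|τ| * (sq u + 1)) ^ 2 := by nlinarith [sq_nonneg (|τ|)]
    have h3 : (|τ| * (sq u + 1)) ^ 2 ≤ δ ^ 2 := pow_le_pow_left₀ (by positivity) d2.le 2
    linarith)
  rw [e1, one_mul] at h1
  simp only [Prod.smul_fst, Prod.smul_snd, smul_eq_mul] at h1
  have e2 : f (z + τ • u) - f z - (p * (τ * u.1) + s * (τ * u.2) +
      (a * (τ * u.1) ^ 2 + 2 * b * (τ * u.1) * (τ * u.2) + c * (τ * u.2) ^ 2) / 2) =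
      (f (z + τ • u) - f z - τ * (p * u.1 + s * u.2)) - τ ^ 2 * Q / 2 := by
    rw [hQ]; ring
  rw [e2] at h1
  have h4 : |f (z + τ • u) - f z - τ * (p * u.1 + s * u.2)| ≤ τ ^ 2 * (|Q| / 2 + sq u) := by
    have h5 : |τ ^ 2 * Q / 2| = τ ^ 2 * (|Q| / 2) := by
      rw [abs_div, abs_mul, abs_of_nonneg (sq_nonneg τ)]
      norm_num
      ring
    have h6 := abs_add_le (f (z + τ • u) - f z - τ * (p * u.1 + s * u.2) - τ ^ 2 * Q / 2)
      (τ ^ 2 * Q / 2)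
    rw [sub_add_cancel] at h6
    linarith
  rw [Real.dist_eq]
  have e3 : (f (z + τ • u) - f z) / τ - (p * u.1 + s * u.2) =
      (f (z + τ • u) - f z - τ * (p * u.1 + s * u.2)) / τ := by
    field_simp
  rw [e3, abs_div, div_lt_iff₀ hτp]
  have e4 : τ ^ 2 = |τ| ^ 2 := (sq_abs τ).symm
  rw [e4] at h4
  nlinarith

private theorem lim_D2_dir {f : ℝ × ℝ → ℝ} {z : ℝ × ℝ} {p s a b c : ℝ}
    (h : ExpAt f z p s a b c) (u : ℝ × ℝ) :
    Tendsto (fun τ : ℝ => D2 f (τ • u) z / τ ^ 2) (𝓝[≠] 0)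
      (𝓝 (a * u.1 ^ 2 + 2 * b * u.1 * u.2 + c * u.2 ^ 2)) := by
  rw [Metric.tendsto_nhdsWithin_nhds]
  intro ε hε
  set Q := a * u.1 ^ 2 + 2 * b * u.1 * u.2 + c * u.2 ^ 2 with hQ
  have hsq : 0 ≤ sq u := by unfold sq; positivity
  obtain ⟨δ, hδ, hh⟩ := h (ε / (4 * (sq u + 1))) (by positivity)
  refine ⟨δ / (sq u + 1), by positivity, ?_⟩
  intro τ hτ hd
  have hτ0 : τ ≠ 0 := hτ
  rw [Real.dist_eq, sub_zero] at hd
  have hτp : 0 < |τ| := abs_pos.2 hτ0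
  have hτ2 : 0 < τ ^ 2 := by positivity
  have d2 : |τ| * (sq u + 1) < δ := by
    rwa [lt_div_iff₀ (by positivity)] at hd
  have hsmall : τ ^ 2 * sq u ≤ δ ^ 2 := by
    rw [← sq_abs τ]
    have h2 : |τ| ^ 2 * sq u ≤ (|τ| * (sq u + 1)) ^ 2 := by nlinarith [sq_nonneg (|τ|)]
    have h3 : (|τ| * (sq u + 1)) ^ 2 ≤ δ ^ 2 := pow_le_pow_left₀ (by positivity) d2.le 2
    linarith
  have e1 : sq (τ • u) = τ ^ 2 * sq u := by
    unfold sq
    simp only [Prod.smul_fst, Prod.smul_snd, smul_eq_mul]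
    ring
  have e1' : sq (-(τ • u)) = τ ^ 2 * sq u := by
    rw [← e1]
    unfold sq
    simp
  have h1 := hh (τ • u) (by rw [e1]; exact hsmall)
  have h2 := hh (-(τ • u)) (by rw [e1']; exact hsmall)
  rw [e1] at h1
  rw [e1'] at h2
  simp only [Prod.smul_fst, Prod.smul_snd, smul_eq_mul, Prod.fst_neg, Prod.snd_neg] at h1 h2
  rw [← sub_eq_add_neg] at h2
  have e2 : D2 f (τ • u) z - τ ^ 2 * Q =
      (f (z + τ • u) - f z - (p * (τ * u.1) + s * (τ * u.2) +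
      (a * (τ * u.1) ^ 2 + 2 * b * (τ * u.1) * (τ * u.2) + c * (τ * u.2) ^ 2) / 2)) +
      (f (z - τ • u) - f z - (p * -(τ * u.1) + s * -(τ * u.2) +
      (a * (-(τ * u.1)) ^ 2 + 2 * b * -(τ * u.1) * -(τ * u.2) + c * (-(τ * u.2)) ^ 2) / 2)) := by
    unfold D2
    rw [hQ]; ring
  have h3 : |D2 f (τ • u) z - τ ^ 2 * Q| ≤ 2 * (ε / (4 * (sq u + 1)) * (τ ^ 2 * sq u)) := by
    rw [e2]
    have := abs_add_le (f (z + τ • u) - f z - (p * (τ * u.1) + s * (τ * u.2) +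
      (a * (τ * u.1) ^ 2 + 2 * b * (τ * u.1) * (τ * u.2) + c * (τ * u.2) ^ 2) / 2))
      (f (z - τ • u) - f z - (p * -(τ * u.1) + s * -(τ * u.2) +
      (a * (-(τ * u.1)) ^ 2 + 2 * b * -(τ * u.1) * -(τ * u.2) + c * (-(τ * u.2)) ^ 2) / 2))
    linarith
  rw [Real.dist_eq]
  have e3 : D2 f (τ • u) z / τ ^ 2 - Q = (D2 f (τ • u) z - τ ^ 2 * Q) / τ ^ 2 := by
    field_simp
  rw [e3, abs_div, abs_of_pos hτ2, div_lt_iff₀ hτ2]
  refine lt_of_le_of_lt h3 ?_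
  have h4 : ε / (4 * (sq u + 1)) * (sq u + 1) = ε / 4 := by
    field_simp
  have h5 : ε / (4 * (sq u + 1)) * sq u ≤ ε / 4 := by
    have : 0 < ε / (4 * (sq u + 1)) := by positivity
    nlinarith
  nlinarith

theorem lim_p {f : ℝ × ℝ → ℝ} {z : ℝ × ℝ} {p s a b c : ℝ} (h : ExpAt f z p s a b c) :
    Tendsto (fun n : ℕ => ((n : ℝ) + 1) * (f (z + (1 / ((n : ℝ) + 1), 0)) - f z)) atTop (𝓝 p) := by
  have h1 := (lim_dir h (1, 0)).comp tau_lim
  simp only [mul_one, mul_zero, add_zero] at h1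
  refine h1.congr fun n => ?_
  have hn : (0 : ℝ) < (n : ℝ) + 1 := by positivity
  simp only [Function.comp_apply, Prod.smul_mk, smul_eq_mul, mul_one, mul_zero]
  field_simp

theorem lim_s {f : ℝ × ℝ → ℝ} {z : ℝ × ℝ} {p s a b c : ℝ} (h : ExpAt f z p s a b c) :
    Tendsto (fun n : ℕ => ((n : ℝ) + 1) * (f (z + (0, 1 / ((n : ℝ) + 1))) - f z)) atTop (𝓝 s) := by
  have h1 := (lim_dir h (0, 1)).comp tau_lim
  simp only [mul_one, mul_zero, zero_add] at h1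
  refine h1.congr fun n => ?_
  have hn : (0 : ℝ) < (n : ℝ) + 1 := by positivity
  simp only [Function.comp_apply, Prod.smul_mk, smul_eq_mul, mul_one, mul_zero]
  field_simp

/-- second differences in the direction `u` -/
theorem lim_D2 {f : ℝ × ℝ → ℝ} {z : ℝ × ℝ} {p s a b c : ℝ} (h : ExpAt f z p s a b c)
    (u : ℝ × ℝ) :
    Tendsto (fun n : ℕ => ((n : ℝ) + 1) ^ 2 * D2 f ((1 / ((n : ℝ) + 1)) • u) z) atTop
      (𝓝 (a * u.1 ^ 2 + 2 * b * u.1 * u.2 + c * u.2 ^ 2)) := by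
  refine ((lim_D2_dir h u).comp tau_lim).congr fun n => ?_
  have hn : (0 : ℝ) < (n : ℝ) + 1 := by positivity
  simp only [Function.comp_apply]
  field_simp

theorem jets_ex {f : ℝ × ℝ → ℝ} (hf : ConvexOn ℝ univ f) :
    ∃ J : Jets, (∀ᵐ z : ℝ × ℝ, Ok f J z) ∧ AEMeasurable J.p ∧ AEMeasurable J.s ∧
      AEMeasurable J.a ∧ AEMeasurable J.b ∧ AEMeasurable J.c := by
  have hfc : Continuous f := by
    rw [← continuousOn_univ]
    exact hf.continuousOn isOpen_univ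
  have hch : ∀ z : ℝ × ℝ, ∃ P : ℝ × ℝ × ℝ × ℝ × ℝ,
      (∃ p s a b c : ℝ, 0 ≤ a ∧ 0 ≤ c ∧ b ^ 2 ≤ a * c ∧ ExpAt f z p s a b c) →
      (0 ≤ P.2.2.1 ∧ 0 ≤ P.2.2.2.2 ∧ P.2.2.2.1 ^ 2 ≤ P.2.2.1 * P.2.2.2.2 ∧
        ExpAt f z P.1 P.2.1 P.2.2.1 P.2.2.2.1 P.2.2.2.2) := by
    intro z
    by_cases h : ∃ p s a b c : ℝ, 0 ≤ a ∧ 0 ≤ c ∧ b ^ 2 ≤ a * c ∧ ExpAt f z p s a b c
    · obtain ⟨p, s, a, b, c, h1⟩ := h
      exact ⟨(p, s, a, b, c), fun _ => h1⟩
    · exact ⟨0, fun h' => absurd h' h⟩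
  choose P hP using hch
  set J : Jets := ⟨fun z => (P z).1, fun z => (P z).2.1, fun z => (P z).2.2.1,
    fun z => (P z).2.2.2.1, fun z => (P z).2.2.2.2⟩ with hJ
  have hok : ∀ᵐ z : ℝ × ℝ, Ok f J z := by
    filter_upwards [alex_plane hf] with z hz
    obtain ⟨h1, h2, h3, h4⟩ := hP z hz
    exact ⟨h4, h1, h2, h3⟩
  have mdiff : ∀ v : ℝ × ℝ, Measurable fun z : ℝ × ℝ => f (z + v) - f z := fun v =>
    ((hfc.comp (continuous_id.add continuous_const)).sub hfc).measurable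
  have mD2 : ∀ v : ℝ × ℝ, Measurable fun z : ℝ × ℝ => D2 f v z := fun v => by
    unfold D2
    exact (((hfc.comp (continuous_id.add continuous_const)).add
      (hfc.comp (continuous_id.sub continuous_const))).sub
      (continuous_const.mul hfc)).measurable
  have hquad : ∀ u : ℝ × ℝ, AEMeasurable fun z : ℝ × ℝ =>
      J.a z * u.1 ^ 2 + 2 * J.b z * u.1 * u.2 + J.c z * u.2 ^ 2 := by
    intro u
    refine aemeasurable_of_tendsto_metrizable_ae atTop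
      (f := fun (n : ℕ) (z : ℝ × ℝ) => ((n : ℝ) + 1) ^ 2 * D2 f ((1 / ((n : ℝ) + 1)) • u) z)
      (fun n => ((mD2 _).const_mul _).aemeasurable) ?_
    filter_upwards [hok] with z hz
    exact lim_D2 hz.1 u
  have ha : AEMeasurable J.a := by
    have := hquad (1, 0)
    simpa using this
  have hc : AEMeasurable J.c := by
    have := hquad (0, 1)
    simpa using this
  have hb : AEMeasurable J.b := by
    have h1 := ((hquad (1, 1)).sub ha).sub hc
    have h2 := h1.div_const 2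
    refine h2.congr (Eventually.of_forall fun z => ?_)
    simp only [Pi.sub_apply]
    ring
  refine ⟨J, hok, ?_, ?_, ha, hb, hc⟩
  · refine aemeasurable_of_tendsto_metrizable_ae atTop
      (f := fun (n : ℕ) (z : ℝ × ℝ) => ((n : ℝ) + 1) * (f (z + (1 / ((n : ℝ) + 1), 0)) - f z))
      (fun n => ((mdiff _).const_mul _).aemeasurable) ?_
    filter_upwards [hok] with z hz
    exact lim_p hz.1
  · refine aemeasurable_of_tendsto_metrizable_ae atTop
      (f := fun (n : ℕ) (z : ℝ × ℝ) => ((n : ℝ) + 1) * (f (z + (0, 1 / ((n : ℝ) + 1))) - f z))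
      (fun n => ((mdiff _).const_mul _).aemeasurable) ?_
    filter_upwards [hok] with z hz
    exact lim_s hz.1

end Pool.Agent.MP_4eca41.A
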