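import Pool.Agent.Work.MP_4eca41_an.A.Meas

/-! # Module RotC: choice of the rotation

PROOF. Let `J` be as in `jets_ex` for `F`. For `θ ∈ ℝ` let
`N θ = {w | Ok F J w, J.a w + J.c w ≠ 0, a cos^2 θ + 2 b cos θ sin θ + c sin^2 θ = 0}` (`a = J.a w` etc.), a null
measurable set. For `θ ≠ θ'` in `[0, π)` the sets `N θ`, `N θ'` are disjoint: a nonzero nonnegative quadratic form
vanishes on at most one line (`u_θ = (cos θ, sin θ)`, `u_θ'` independent; if the form vanishes at both it is `0`,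
as for a nonnegative form `q(u) = 0` implies that `u` is in its kernel). So only countably many
`θ ∈ [0, π)` have `volume (N θ) > 0` (`Measure.countable_meas_pos_of_disjoint_iUnion₀` or the measurable version
after replacing `J` by measurable representatives); choose `θ` with `volume (N θ) = 0`. For a.e. `z`: `rot θ z` is
not in `N θ` and `Ok F J (rot θ z)` (`rot_mp`, `quasiMeasurePreserving`); an expansion of `F ∘ rot θ` at `z` has
`a' = a cos^2 θ + ...` (`exp_rot`, `exp_unique`), so `a' = 0` implies `J.a = J.c = J.b = 0` at `rot θ z`, so `c' = 0`. -/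

set_option autoImplicit false

namespace Pool.Agent.MP_4eca41.A

open Set MeasureTheory Filter Topology

private theorem rc_kernel {a b c x y x' y' : ℝ} (ha : 0 ≤ a) (hc : 0 ≤ c) (hb : b ^ 2 ≤ a * c)
    (hd : x * y' - y * x' ≠ 0) (h : a * x ^ 2 + 2 * b * x * y + c * y ^ 2 = 0)
    (h' : a * x' ^ 2 + 2 * b * x' * y' + c * y' ^ 2 = 0) : a = 0 ∧ c = 0 := by
  have key : ∀ u v : ℝ, a * u ^ 2 + 2 * b * u * v + c * v ^ 2 = 0 →
      a * u + b * v = 0 ∧ b * u + c * v = 0 := by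
    intro u v huv
    have h1 : (a * u + b * v) ^ 2 + (a * c - b ^ 2) * v ^ 2 = 0 := by
      linear_combination a * huv
    have h2 : (b * u + c * v) ^ 2 + (a * c - b ^ 2) * u ^ 2 = 0 := by
      linear_combination c * huv
    have h3 : 0 ≤ (a * c - b ^ 2) * v ^ 2 := mul_nonneg (by linarith) (sq_nonneg v)
    have h4 : 0 ≤ (a * c - b ^ 2) * u ^ 2 := mul_nonneg (by linarith) (sq_nonneg u)
    constructor
    · have : (a * u + b * v) ^ 2 = 0 := le_antisymm (by linarith) (sq_nonneg _)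
      exact pow_eq_zero_iff (two_ne_zero) |>.1 this
    · have : (b * u + c * v) ^ 2 = 0 := le_antisymm (by linarith) (sq_nonneg _)
      exact pow_eq_zero_iff (two_ne_zero) |>.1 this
  obtain ⟨h1, h2⟩ := key x y h
  obtain ⟨h3, h4⟩ := key x' y' h'
  constructor
  · have h5 : a * (x * y' - y * x') = 0 := by linear_combination y' * h1 - y * h3
    exact (mul_eq_zero.1 h5).resolve_right hd
  · have h5 : c * (x * y' - y * x') = 0 := by linear_combination x * h4 - x' * h2
    exact (mul_eq_zero.1 h5).resolve_right hd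

private theorem rc_sin {θ θ' : ℝ} (h : θ ∈ Ico (0 : ℝ) Real.pi) (h' : θ' ∈ Ico (0 : ℝ) Real.pi)
    (hne : θ ≠ θ') : Real.cos θ * Real.sin θ' - Real.sin θ * Real.cos θ' ≠ 0 := by
  have h1 : Real.cos θ * Real.sin θ' - Real.sin θ * Real.cos θ' = Real.sin (θ' - θ) := by
    rw [Real.sin_sub]; ring
  rw [h1]
  rcases lt_or_gt_of_ne hne with h2 | h2
  · have := Real.sin_pos_of_pos_of_lt_pi (x := θ' - θ) (by linarith) (by
      have := h.1; have := h'.2; linarith)
    exact this.ne'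
  · have := Real.sin_pos_of_pos_of_lt_pi (x := θ - θ') (by linarith) (by
      have := h'.1; have := h.2; linarith)
    have h3 : Real.sin (θ' - θ) = -Real.sin (θ - θ') := by
      rw [← Real.sin_neg]; congr 1; ring
    rw [h3]
    exact (neg_lt_zero.2 this).ne

private theorem rc_choice {A B C : ℝ × ℝ → ℝ} (hA : Measurable A) (hB : Measurable B)
    (hC : Measurable C) : ∃ θ ∈ Ico (0 : ℝ) Real.pi, volume {w : ℝ × ℝ | 0 ≤ A w ∧ 0 ≤ C w ∧
      B w ^ 2 ≤ A w * C w ∧ 0 < A w + C w ∧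
      A w * Real.cos θ ^ 2 + 2 * B w * Real.cos θ * Real.sin θ + C w * Real.sin θ ^ 2 = 0} =
      0 := by
  set N : Ico (0 : ℝ) Real.pi → Set (ℝ × ℝ) := fun θ => {w : ℝ × ℝ | 0 ≤ A w ∧ 0 ≤ C w ∧
      B w ^ 2 ≤ A w * C w ∧ 0 < A w + C w ∧ A w * Real.cos θ ^ 2 +
      2 * B w * Real.cos θ * Real.sin θ + C w * Real.sin θ ^ 2 = 0} with hN
  have hm : ∀ θ, MeasurableSet (N θ) := by
    intro θ
    refine (measurableSet_le measurable_const hA).inter
      ((measurableSet_le measurable_const hC).inter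
      ((measurableSet_le (hB.pow_const 2) (hA.mul hC)).inter
      ((measurableSet_lt measurable_const (hA.add hC)).inter ?_)))
    exact measurableSet_eq_fun (((hA.mul_const _).add
      (((hB.const_mul 2).mul_const _).mul_const _)).add (hC.mul_const _)) measurable_const
  have hd : Pairwise (Function.onFun Disjoint N) := by
    intro θ θ' hne
    rw [Function.onFun, Set.disjoint_left]
    rintro w ⟨h1, h2, h3, h4, h5⟩ ⟨-, -, -, -, h6⟩
    have hne' : (θ : ℝ) ≠ θ' := fun h => hne (Subtype.ext h)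
    obtain ⟨h7, h8⟩ := rc_kernel h1 h2 h3 (rc_sin θ.2 θ'.2 hne') h5 h6
    rw [h7, h8] at h4
    norm_num at h4
  have hcount := Measure.countable_meas_pos_of_disjoint_iUnion (μ := (volume : Measure (ℝ × ℝ)))
    hm hd
  by_contra hcon
  push Not at hcon
  have h1 : {θ | 0 < volume (N θ)} = Set.univ := by
    rw [Set.eq_univ_iff_forall]
    intro θ
    exact pos_iff_ne_zero.2 (hcon θ θ.2)
  rw [h1] at hcount
  have h2 : (Ico (0 : ℝ) Real.pi).Countable := Set.countable_coe_iff.1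
    (Set.countable_univ_iff.1 hcount)
  have h3 := h2.measure_zero volume
  rw [Real.volume_Ico, sub_zero, ENNReal.ofReal_eq_zero] at h3
  linarith [Real.pi_pos]

theorem rot_choice {F : ℝ × ℝ → ℝ} (hF : ConvexOn ℝ univ F) :
    ∃ θ : ℝ, ∀ᵐ z : ℝ × ℝ, ∀ p s a b c : ℝ, ExpAt (fun z => F (rot θ z)) z p s a b c →
      a = 0 → c = 0 := by
  obtain ⟨J, hok, -, -, ha, hb, hc⟩ := jets_ex hF
  obtain ⟨θ, -, hθ⟩ := rc_choice ha.measurable_mk hb.measurable_mk hc.measurable_mk
  refine ⟨θ, ?_⟩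
  have hN : ∀ᵐ w : ℝ × ℝ, ¬ (0 ≤ ha.mk J.a w ∧ 0 ≤ hc.mk J.c w ∧
      hb.mk J.b w ^ 2 ≤ ha.mk J.a w * hc.mk J.c w ∧ 0 < ha.mk J.a w + hc.mk J.c w ∧
      ha.mk J.a w * Real.cos θ ^ 2 + 2 * hb.mk J.b w * Real.cos θ * Real.sin θ +
      hc.mk J.c w * Real.sin θ ^ 2 = 0) := by
    rw [ae_iff]
    simpa only [not_not] using hθ
  have hall := (hok.and hN).and ((ha.ae_eq_mk.and hb.ae_eq_mk).and hc.ae_eq_mk)
  have hz := (rot_mp θ).quasiMeasurePreserving.ae hall
  filter_upwards [hz] with z hz p s a b c he ha0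
  obtain ⟨⟨⟨h1, h2, h3, h4⟩, h5⟩, ⟨h6, h7⟩, h8⟩ := hz
  rw [← h6, ← h7, ← h8] at h5
  obtain ⟨-, -, h9, -, h10⟩ := exp_unique he (exp_rot h1)
  have h11 : ¬ 0 < J.a (rot θ z) + J.c (rot θ z) := by
    intro hpos
    exact h5 ⟨h2, h3, h4, hpos, by rw [← h9, ha0]⟩
  have h12 : J.a (rot θ z) = 0 := by linarith
  have h13 : J.c (rot θ z) = 0 := by linarith
  have h14 : J.b (rot θ z) = 0 := by
    rw [h12, zero_mul] at h4
    have : J.b (rot θ z) ^ 2 = 0 := le_antisymm h4 (sq_nonneg _)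
    exact pow_eq_zero_iff two_ne_zero |>.1 this
  rw [h10, h12, h13, h14]
  ring

end Pool.Agent.MP_4eca41.A
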