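import Pool.Agent.Work.MP_4eca41_an.A.LipC
import Pool.Agent.Work.MP_4eca41_an.A.ExtG
import Pool.Agent.Work.MP_4eca41_an.A.RotL
import Pool.Agent.Work.MP_4eca41_an.A.RotC
import Pool.Agent.Work.MP_4eca41_an.A.Meas
import Pool.Agent.Work.MP_4eca41_an.A.Ego
import Pool.Agent.Work.MP_4eca41_an.A.Cut

/-! # Assembly of block A -/

set_option autoImplicit false

namespace Pool.Agent.MP_4eca41.A

open Set MeasureTheory Filter Topology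

theorem main (f0 : ℝ × ℝ → ℝ) (h0 : ConvexOn ℝ disc f0) (ε : ℝ) (hε : 0 < ε) :
    ∃ (θ : ℝ) (f : ℝ × ℝ → ℝ) (K0 K1 K2 : Set (ℝ × ℝ)) (J : Jets),
      ConvexOn ℝ univ f ∧ Gr f ∧ IsCompact K0 ∧ IsCompact K1 ∧ IsCompact K2 ∧
      K0 ⊆ disc ∧ K1 ⊆ disc ∧ K2 ⊆ disc ∧
      Exp2 f K0 J ∧ Exp2 f K1 J ∧ Exp2 f K2 J ∧
      (∀ z ∈ K0, J.a z = 0 ∧ J.b z = 0 ∧ J.c z = 0) ∧
      (∀ z ∈ K1, 0 < J.a z ∧ J.a z * J.c z = J.b z ^ 2) ∧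
      (∀ z ∈ K2, 0 < J.a z ∧ J.b z ^ 2 < J.a z * J.c z) ∧
      (∀ z ∈ K0 ∪ K1 ∪ K2, f z = f0 (rot θ z)) ∧
      volume (disc \ (K0 ∪ K1 ∪ K2)) < ENNReal.ofReal ε := by
  have h4 : 0 < ε / 4 := by positivity
  obtain ⟨r, hr0, hr1, hrv⟩ := disc_meas h4
  obtain ⟨F, hF, hG, hFe⟩ := ext_glob h0 hr0 hr1
  obtain ⟨θ, hθ⟩ := rot_choice hF
  have hf : ConvexOn ℝ univ fun z => F (rot θ z) := rot_convex hF θ
  have hgf : Gr fun z => F (rot θ z) := rot_gr hG θ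
  obtain ⟨J, hJ, hp, hs, ha, hb, hc⟩ := jets_ex hf
  obtain ⟨A0, hA0d, hA0m, hA0v, hA0E⟩ := ego hf hJ hp hs ha hb hc h4
  -- a measurable set of full measure of good points
  obtain ⟨S, hSsub, hSm, hSv⟩ := exists_measurable_superset_of_null (ae_iff.1 hJ)
  have hok : ∀ z, z ∉ S → Ok (fun z => F (rot θ z)) J z := by
    intro z hz
    by_contra hcon
    exact hz (hSsub hcon)
  have hcbm : MeasurableSet (cb 0 r) := (cb_compact 0 r).measurableSet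
  have hAm : MeasurableSet (A0 ∩ Sᶜ ∩ cb 0 r) := (hA0m.inter hSm.compl).inter hcbm
  have hAd : A0 ∩ Sᶜ ∩ cb 0 r ⊆ disc := fun z hz => hA0d hz.1.1
  have hsub0 : A0 ∩ Sᶜ ∩ cb 0 r ⊆ A0 := fun z hz => hz.1.1
  have hAE := exp2_mono hA0E hsub0
  have hpos : ∀ z ∈ A0 ∩ Sᶜ ∩ cb 0 r, 0 ≤ J.a z ∧ 0 ≤ J.c z ∧ J.b z ^ 2 ≤ J.a z * J.c z := by
    intro z hz
    exact (hok z hz.1.2).2
  have hn : ∀ᵐ z : ℝ × ℝ, z ∈ A0 ∩ Sᶜ ∩ cb 0 r → J.a z = 0 → J.c z = 0 := by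
    filter_upwards [hθ] with z hz hzA ha0
    exact hz _ _ _ _ _ (hok z hzA.1.2).1 ha0
  obtain ⟨K0, K1, K2, hK0, hK1, hK2, hs0, hs1, hs2, hz0, hz1, hz2, hv⟩ :=
    cut hAm hAd hAE.ca hAE.cb hAE.cc hpos hn h4
  refine ⟨θ, fun z => F (rot θ z), K0, K1, K2, J, hf, hgf, hK0, hK1, hK2,
    hs0.trans hAd, hs1.trans hAd, hs2.trans hAd, exp2_mono hAE hs0, exp2_mono hAE hs1,
    exp2_mono hAE hs2, hz0, hz1, hz2, ?_, ?_⟩
  · intro z hz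
    have hzA : z ∈ A0 ∩ Sᶜ ∩ cb 0 r := by
      rcases hz with (hz | hz) | hz
      · exact hs0 hz
      · exact hs1 hz
      · exact hs2 hz
    have h1 : rot θ z ∈ cb 0 r := by
      have h2 : sq (z - 0) ≤ r ^ 2 := hzA.2
      change sq (rot θ z - 0) ≤ r ^ 2
      rw [sub_zero] at h2 ⊢
      rw [sq_rot]; exact h2
    exact hFe _ h1
  · have hcov : disc \ (K0 ∪ K1 ∪ K2) ⊆
        ((disc \ A0) ∪ (disc \ cb 0 r)) ∪ ((A0 ∩ Sᶜ ∩ cb 0 r) \ (K0 ∪ K1 ∪ K2) ∪ S) := by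
      intro z hz
      by_cases h1 : z ∈ A0
      · by_cases h2 : z ∈ cb 0 r
        · by_cases h3 : z ∈ S
          · exact Or.inr (Or.inr h3)
          · exact Or.inr (Or.inl ⟨⟨⟨h1, h3⟩, h2⟩, hz.2⟩)
        · exact Or.inl (Or.inr ⟨hz.1, h2⟩)
      · exact Or.inl (Or.inl ⟨hz.1, h1⟩)
    calc volume (disc \ (K0 ∪ K1 ∪ K2))
        ≤ volume (((disc \ A0) ∪ (disc \ cb 0 r)) ∪
          ((A0 ∩ Sᶜ ∩ cb 0 r) \ (K0 ∪ K1 ∪ K2) ∪ S)) := measure_mono hcov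
      _ ≤ (volume (disc \ A0) + volume (disc \ cb 0 r)) +
          (volume ((A0 ∩ Sᶜ ∩ cb 0 r) \ (K0 ∪ K1 ∪ K2)) + volume S) :=
          (measure_union_le _ _).trans (add_le_add (measure_union_le _ _) (measure_union_le _ _))
      _ ≤ (ENNReal.ofReal (ε / 4) + ENNReal.ofReal (ε / 4)) + (ENNReal.ofReal (ε / 4) + 0) := by
          rw [hSv]
          gcongr
      _ = ENNReal.ofReal (3 * ε / 4) := by
          rw [add_zero, ← ENNReal.ofReal_add h4.le h4.le, ← ENNReal.ofReal_add (by positivity) h4.le]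
          congr 1
          ring
      _ < ENNReal.ofReal ε := by
          rw [ENNReal.ofReal_lt_ofReal_iff hε]
          linarith

end Pool.Agent.MP_4eca41.A
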