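import Pool.Agent.Work.MP_4eca41_an.A.Alex
import Pool.Agent.Work.MP_4eca41_an.Defs

/-! # Module Plane: Alexandrov's theorem on `ℝ × ℝ`

PROOF. Apply `alexandrov` to `f ∘ e`, `e : EuclideanSpace ℝ (Fin 2) → ℝ × ℝ`, `e x = (x 0, x 1)`, a linear
homeomorphism, which preserves the measure (`EuclideanSpace.volume_preserving_measurableEquiv` (new name
`EuclideanSpace.volume_preserving_symm_measurableEquiv_toLp` or the like) and
`MeasureTheory.volume_preserving_finTwoArrow`); `‖x‖^2 = sq (e x)`. The coefficients: `p, s` = coordinates of the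
gradient, `a = ⟪H e₀, e₀⟫`, `b = ⟪H e₀, e₁⟫`, `c = ⟪H e₁, e₁⟫`; `a, c ≥ 0` and
`b^2 ≤ a c` as the quadratic form `⟪H u, u⟫` is nonnegative (discriminant). The little o is the
`ε`-`δ` statement of `ExpAt` (`Asymptotics.isLittleO_iff`, `Metric.eventually_nhds_iff`). -/

set_option autoImplicit false

namespace Pool.Agent.MP_4eca41.A

open Set MeasureTheory
open scoped RealInnerProductSpace

/-- the plane as a pair space -/
private noncomputable def eL : EuclideanSpace ℝ (Fin 2) →ₗ[ℝ] ℝ × ℝ where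
  toFun x := (x 0, x 1)
  map_add' x y := by simp
  map_smul' r x := by simp

/-- the inverse map -/
private noncomputable def tL (z : ℝ × ℝ) : EuclideanSpace ℝ (Fin 2) :=
  WithLp.toLp 2 ![z.1, z.2]

private theorem tL_mp : MeasurePreserving tL (volume : Measure (ℝ × ℝ)) volume := by
  have h1 := PiLp.volume_preserving_toLp (Fin 2)
  have h2 : MeasurePreserving (@MeasurableEquiv.finTwoArrow ℝ _).symm
      (volume : Measure (ℝ × ℝ)) volume :=
    (volume_preserving_finTwoArrow ℝ).symm (MeasurableEquiv.finTwoArrow)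
  have h3 := h1.comp h2
  have h4 : (@WithLp.toLp 2 (Fin 2 → ℝ)) ∘ (@MeasurableEquiv.finTwoArrow ℝ _).symm = tL := by
    funext z
    ext i
    fin_cases i <;> rfl
  rw [← h4]
  exact h3

private theorem eL_tL (z : ℝ × ℝ) : eL (tL z) = z := by
  simp [eL, tL]

private theorem tL_add (z v : ℝ × ℝ) : tL z + tL v = tL (z + v) := by
  ext i
  fin_cases i <;> simp [tL]

private theorem tL_norm (v : ℝ × ℝ) : ‖tL v‖ ^ 2 = sq v := by
  rw [EuclideanSpace.norm_sq_eq]
  simp [tL, sq]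

private theorem tL_eq (v : ℝ × ℝ) : tL v = v.1 • tL (1, 0) + v.2 • tL (0, 1) := by
  ext i
  fin_cases i <;> simp [tL]

theorem alex_plane {f : ℝ × ℝ → ℝ} (hf : ConvexOn ℝ univ f) :
    ∀ᵐ z : ℝ × ℝ, ∃ p s a b c : ℝ, 0 ≤ a ∧ 0 ≤ c ∧ b ^ 2 ≤ a * c ∧ ExpAt f z p s a b c := by
  have hfe : ConvexOn ℝ univ (f ∘ eL) := by
    have := hf.comp_linearMap eL
    simpa using this
  have h1 := alexandrov hfe
  have h2 := tL_mp.quasiMeasurePreserving.ae h1
  filter_upwards [h2] with z hz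
  obtain ⟨P, H, hs, hp, ho⟩ := hz
  set u₀ := tL (1, 0) with hu₀
  set u₁ := tL (0, 1) with hu₁
  refine ⟨⟪P, u₀⟫, ⟪P, u₁⟫, ⟪H u₀, u₀⟫, ⟪H u₀, u₁⟫, ⟪H u₁, u₁⟫, ?_, ?_, ?_, ?_⟩
  · rw [real_inner_comm]; exact hp _
  · rw [real_inner_comm]; exact hp _
  · have hq : ∀ x : ℝ, 0 ≤ ⟪H u₀, u₀⟫ * (x * x) + (2 * ⟪H u₀, u₁⟫) * x + ⟪H u₁, u₁⟫ := by
      intro x
      have h3 := hp (x • u₀ + u₁)
      have h4 : ⟪x • u₀ + u₁, H (x • u₀ + u₁)⟫ =
          ⟪H u₀, u₀⟫ * (x * x) + (2 * ⟪H u₀, u₁⟫) * x + ⟪H u₁, u₁⟫ := by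
        simp only [map_add, map_smul, inner_add_left, inner_add_right, inner_smul_left,
          inner_smul_right, ← hs]
        simp only [conj_trivial]
        have h5 : ⟪H u₁, u₀⟫ = ⟪H u₀, u₁⟫ := by
          rw [hs, real_inner_comm]
        rw [h5]
        ring
      rw [← h4]; exact h3
    have h6 := discrim_le_zero hq
    unfold discrim at h6
    nlinarith
  · intro ε hε
    rw [Asymptotics.isLittleO_iff] at ho
    have h3 := ho hε
    rw [Metric.eventually_nhds_iff] at h3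
    obtain ⟨δ, hδ, h4⟩ := h3
    refine ⟨δ / 2, by positivity, fun v hv => ?_⟩
    have hn : ‖tL v‖ ≤ δ / 2 := by
      rw [← tL_norm] at hv
      exact le_of_sq_le_sq hv (by positivity)
    have h5 := h4 (y := tL v) (by rw [dist_zero_right]; linarith)
    have h6 : ‖‖tL v‖ ^ 2‖ = sq v := by
      rw [Real.norm_of_nonneg (by positivity), tL_norm]
    rw [h6, Real.norm_eq_abs] at h5
    have h7 : (f ∘ eL) (tL z + tL v) - (f ∘ eL) (tL z) - ⟪P, tL v⟫ - ⟪H (tL v), tL v⟫ / 2 =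
        f (z + v) - f z - (⟪P, u₀⟫ * v.1 + ⟪P, u₁⟫ * v.2 +
          (⟪H u₀, u₀⟫ * v.1 ^ 2 + 2 * ⟪H u₀, u₁⟫ * v.1 * v.2 + ⟪H u₁, u₁⟫ * v.2 ^ 2) / 2) := by
      rw [tL_add]
      simp only [Function.comp_apply, eL_tL]
      rw [tL_eq v, ← hu₀, ← hu₁]
      have h8 : ⟪H u₁, u₀⟫ = ⟪H u₀, u₁⟫ := by
        rw [hs, real_inner_comm]
      simp only [map_add, map_smul, inner_add_left, inner_add_right, inner_smul_left,
        inner_smul_right, conj_trivial, h8]
      ring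
    rw [h7] at h5
    exact h5

end Pool.Agent.MP_4eca41.A
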