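import Pool.Agent.Work.MP_4eca41_an.A.Sub

/-! # Module Prox: the resolvent `R = (1 + ∂f)⁻¹`

`res_ex` PROOF. `G z = f z + |z|^2/2 - ⟪y, z⟫` is continuous and tends to infinity (`f z ≥ f 0 + ⟪p, z⟫` by
`sub_ex` at `0`), so it has a minimum `x` (`Continuous.exists_forall_le`). For `z` and `t ∈ (0,1]`:
`G x ≤ G (x + t (z - x))` and convexity give `f x - f z ≤ t |z-x|^2 / 2 - ⟪y - x, z - x⟫`; `t → 0`: `y - x` is a
subgradient at `x`.
`res_unique`, `res_lip`: `sub_mono` with `p = y - x`: `|x - x'|^2 ≤ ⟪y - y', x - x'⟫`.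
`res_surj`: `x = R (x + p)` for a subgradient `p` at `x`. -/

namespace Pool.Agent.MP_4eca41.A

open Set Filter Topology Metric
open scoped RealInnerProductSpace

variable {E : Type*} [NormedAddCommGroup E] [InnerProductSpace ℝ E]

theorem res_ex [FiniteDimensional ℝ E] {f : E → ℝ} (hf : ConvexOn ℝ univ f) (y : E) :
    ∃ x, IsSub f x (y - x) := by
  obtain ⟨p, hp⟩ := sub_ex hf (0 : E)
  have hfc : Continuous f := hf.locallyLipschitz.continuous
  have hG : Continuous (fun z : E => f z + ‖z‖ ^ 2 / 2 - ⟪y, z⟫) := by fun_prop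
  have hco : ∀ᶠ z in cocompact E, (fun z : E => f z + ‖z‖ ^ 2 / 2 - ⟪y, z⟫) 0 ≤
      (fun z : E => f z + ‖z‖ ^ 2 / 2 - ⟪y, z⟫) z := by
    have h1 : Tendsto (fun z : E => ‖z‖) (cocompact E) atTop := tendsto_norm_cocompact_atTop
    filter_upwards [h1.eventually (eventually_ge_atTop (2 * ‖p - y‖))] with z hz
    have h2 := hp z
    rw [sub_zero] at h2
    have h3 : |⟪p - y, z⟫| ≤ ‖p - y‖ * ‖z‖ := abs_real_inner_le_norm _ _
    have h4 := (abs_le.mp h3).1
    rw [inner_sub_left] at h4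
    have h5 : 0 ≤ ‖p - y‖ := norm_nonneg _
    have h6 : 0 ≤ ‖z‖ := norm_nonneg _
    have h7 : f z + ‖z‖ ^ 2 / 2 - ⟪y, z⟫ ≥ f 0 + ‖(0:E)‖ ^ 2 / 2 - ⟪y, (0:E)⟫ := by
      rw [norm_zero, inner_zero_right]
      nlinarith
    exact h7
  obtain ⟨x, hx⟩ := hG.exists_forall_le' (0 : E) hco
  refine ⟨x, fun z => ?_⟩
  have key : ∀ t : ℝ, 0 < t → t ≤ 1 →
      f x + ⟪y - x, z - x⟫ ≤ f z + t * (‖z - x‖ ^ 2 / 2) := by
    intro t ht ht1
    have h1 : f x + ‖x‖ ^ 2 / 2 - ⟪y, x⟫ ≤ f (x + t • (z - x)) + ‖x + t • (z - x)‖ ^ 2 / 2 -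
        ⟪y, x + t • (z - x)⟫ := hx (x + t • (z - x))
    have h2 : f (x + t • (z - x)) ≤ (1 - t) * f x + t * f z := by
      have h3 := hf.2 (mem_univ x) (mem_univ z) (by linarith : 0 ≤ 1 - t) ht.le (by ring)
      have h4 : (1 - t) • x + t • z = x + t • (z - x) := by
        rw [sub_smul, one_smul, smul_sub]; abel
      rw [h4] at h3
      simpa [smul_eq_mul] using h3
    have h5 : ‖x + t • (z - x)‖ ^ 2 = ‖x‖ ^ 2 + 2 * (t * ⟪x, z - x⟫) + t ^ 2 * ‖z - x‖ ^ 2 := by
      rw [norm_add_sq_real, inner_smul_right, norm_smul, mul_pow, Real.norm_eq_abs, sq_abs]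
    have h6 : ⟪y, x + t • (z - x)⟫ = ⟪y, x⟫ + t * ⟪y, z - x⟫ := by
      rw [inner_add_right, inner_smul_right]
    have h7 : ⟪y - x, z - x⟫ = ⟪y, z - x⟫ - ⟪x, z - x⟫ := inner_sub_left _ _ _
    rw [h5, h6] at h1
    rw [h7]
    have h8 : t * (f x + (⟪y, z - x⟫ - ⟪x, z - x⟫)) ≤ t * (f z + t * (‖z - x‖ ^ 2 / 2)) := by
      nlinarith
    exact le_of_mul_le_mul_left h8 ht
  have hlim : Tendsto (fun t : ℝ => f z + t * (‖z - x‖ ^ 2 / 2)) (𝓝[>] 0)
      (𝓝 (f z + 0 * (‖z - x‖ ^ 2 / 2))) := by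
    apply tendsto_nhdsWithin_of_tendsto_nhds
    exact (continuous_const.add (continuous_id.mul continuous_const)).tendsto 0
  rw [zero_mul, add_zero] at hlim
  refine ge_of_tendsto hlim ?_
  filter_upwards [Ioc_mem_nhdsGT (zero_lt_one (α := ℝ))] with t ht
  exact key t ht.1 ht.2

open Classical in
/-- the resolvent -/
noncomputable def res (f : E → ℝ) (y : E) : E :=
  if h : ∃ x, IsSub f x (y - x) then h.choose else 0

theorem res_spec [FiniteDimensional ℝ E] {f : E → ℝ} (hf : ConvexOn ℝ univ f) (y : E) :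
    IsSub f (res f y) (y - res f y) := by
  have h := res_ex hf y
  unfold res
  rw [dif_pos h]
  exact h.choose_spec

theorem res_unique [FiniteDimensional ℝ E] {f : E → ℝ} (hf : ConvexOn ℝ univ f) {x y : E}
    (h : IsSub f x (y - x)) : res f y = x := by
  have h1 := sub_mono (res_spec hf y) h
  have h2 : (y - res f y) - (y - x) = -(res f y - x) := by abel
  rw [h2, inner_neg_left, real_inner_self_eq_norm_sq] at h1
  have h3 : ‖res f y - x‖ = 0 := by
    have := norm_nonneg (res f y - x)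
    nlinarith
  exact sub_eq_zero.mp (norm_eq_zero.mp h3)

/-- firm nonexpansiveness -/
theorem res_firm [FiniteDimensional ℝ E] {f : E → ℝ} (hf : ConvexOn ℝ univ f) (y y' : E) :
    ‖res f y - res f y'‖ ^ 2 ≤ ⟪y - y', res f y - res f y'⟫ := by
  have h1 := sub_mono (res_spec hf y) (res_spec hf y')
  have h2 : (y - res f y) - (y' - res f y') = (y - y') - (res f y - res f y') := by abel
  rw [h2, inner_sub_left, real_inner_self_eq_norm_sq] at h1
  linarith

theorem res_lip [FiniteDimensional ℝ E] {f : E → ℝ} (hf : ConvexOn ℝ univ f) :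
    LipschitzWith 1 (res f) := by
  refine LipschitzWith.of_dist_le_mul fun y y' => ?_
  rw [dist_eq_norm, dist_eq_norm, NNReal.coe_one, one_mul]
  have h1 := res_firm hf y y'
  have h2 : ⟪y - y', res f y - res f y'⟫ ≤ ‖y - y'‖ * ‖res f y - res f y'‖ :=
    real_inner_le_norm _ _
  have h3 : 0 ≤ ‖res f y - res f y'‖ := norm_nonneg _
  rcases h3.eq_or_lt with h0 | h0
  · rw [← h0]; exact norm_nonneg _
  · nlinarith

theorem res_surj [FiniteDimensional ℝ E] {f : E → ℝ} (hf : ConvexOn ℝ univ f) {x p : E}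
    (h : IsSub f x p) : res f (x + p) = x := by
  apply res_unique hf
  rw [add_sub_cancel_left]
  exact h

end Pool.Agent.MP_4eca41.A
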