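import Mathlib

/-! # Module Sub: subgradients of a convex function on a finite dimensional Euclidean space

`IsSub f x p`: `p` is a subgradient of `f` at `x`.
`sub_ex` PROOF. `f` is continuous (`ConvexOn.continuousOn`, finite dimension). By
`ConvexOn.exists_affine_le_of_lt` (file `Mathlib/Analysis/Convex/Approximation.lean`, `𝕜 = ℝ`) for every
`n` there are `l_n, c_n` with `l_n + c_n ≤ f`, `l_n x + c_n = f x - 1/(n+1)`; the `l_n` are bounded (test with
`x + e`, `|e| = 1`: `l_n e ≤ f (x+e) - f x + 1`), so a subsequence converges. Or directly: separate the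
point `(x, f x)` from the open convex strict epigraph (`geometric_hahn_banach_point_open`); the separating
functional is not vertical since the strict epigraph contains points over both sides of `x`.
`sub_mono`: add the two inequalities. -/

namespace Pool.Agent.MP_4eca41.A

open Set Filter Topology Metric
open scoped RealInnerProductSpace

variable {E : Type*} [NormedAddCommGroup E] [InnerProductSpace ℝ E]

/-- `p` is a subgradient of `f` at `x` -/
def IsSub (f : E → ℝ) (x p : E) : Prop := ∀ z, f x + ⟪p, z - x⟫ ≤ f z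

theorem sub_ex [FiniteDimensional ℝ E] {f : E → ℝ} (hf : ConvexOn ℝ univ f) (x : E) :
    ∃ p, IsSub f x p := by
  haveI : CompleteSpace E := FiniteDimensional.complete ℝ E
  have hcont : Continuous f := by
    rw [← continuousOn_univ]
    exact hf.continuousOn isOpen_univ
  have hconv : Convex ℝ {w : E × ℝ | w.1 ∈ (univ : Set E) ∧ f w.1 < w.2} :=
    hf.convex_strict_epigraph
  have hopen : IsOpen {w : E × ℝ | w.1 ∈ (univ : Set E) ∧ f w.1 < w.2} := by
    have h1 : {w : E × ℝ | w.1 ∈ (univ : Set E) ∧ f w.1 < w.2} = {w : E × ℝ | f w.1 < w.2} := by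
      ext w
      simp
    rw [h1]
    exact isOpen_lt (hcont.comp continuous_fst) continuous_snd
  have hx : (x, f x) ∉ {w : E × ℝ | w.1 ∈ (univ : Set E) ∧ f w.1 < w.2} := fun h => lt_irrefl _ h.2
  obtain ⟨g, hg⟩ := geometric_hahn_banach_point_open hconv hopen hx
  have hsplit : ∀ (z : E) (t : ℝ), g (z, t) = g (z, 0) + t * g (0, 1) := by
    intro z t
    have h1 : ((z, t) : E × ℝ) = (z, 0) + t • (0, 1) := by
      simp
    rw [h1, map_add, map_smul, smul_eq_mul]
  have hc : 0 < g (0, 1) := by
    have h1 := hg (x, f x + 1) ⟨mem_univ _, lt_add_one _⟩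
    rw [hsplit x (f x), hsplit x (f x + 1)] at h1
    nlinarith
  let l : E →L[ℝ] ℝ := g.comp (ContinuousLinearMap.inl ℝ E ℝ)
  have hl : ∀ z, l z = g (z, 0) := fun z => rfl
  have hle : ∀ z, l x + f x * g (0, 1) ≤ l z + f z * g (0, 1) := by
    intro z
    refine le_of_forall_pos_le_add fun ε hε => ?_
    have h1 := hg (z, f z + ε / g (0, 1)) ⟨mem_univ _, lt_add_of_pos_right _ (div_pos hε hc)⟩
    rw [hsplit x (f x), hsplit z _, add_mul, div_mul_cancel₀ _ hc.ne'] at h1
    rw [hl, hl]
    linarith
  refine ⟨(InnerProductSpace.toDual ℝ E).symm (-(1 / g (0, 1)) • l), fun z => ?_⟩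
  rw [InnerProductSpace.toDual_symm_apply]
  have h2 : (-(1 / g (0, 1)) • l) (z - x) = (l x - l z) / g (0, 1) := by
    rw [ContinuousLinearMap.smul_apply, map_sub, smul_eq_mul]
    ring
  rw [h2, ← le_sub_iff_add_le', div_le_iff₀ hc]
  have h3 := hle z
  linarith

theorem sub_mono {f : E → ℝ} {x y p q : E} (hp : IsSub f x p) (hq : IsSub f y q) :
    0 ≤ ⟪p - q, x - y⟫ := by
  have h1 := hp y
  have h2 := hq x
  have h3 : ⟪p - q, x - y⟫ = -⟪p, y - x⟫ - ⟪q, x - y⟫ := by
    rw [inner_sub_left, ← neg_sub y x, inner_neg_right, inner_neg_right]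
  rw [h3]
  linarith

end Pool.Agent.MP_4eca41.A
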