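import Pool.Agent.Work.MP_4eca41_an.A.Conj

/-! # Module Symm: at a point where the resolvent is differentiable

Let `HasFDerivAt (res f) A y`.
`res_symm`: `A` is symmetric: `second_derivative_symmetric` (or `second_derivative_symmetric_of_eventually`) for
the function `cj f` with derivative `innerSL ℝ (res f y)` (`cj_grad`), second derivative `k ↦ innerSL ℝ (A k)`.
`res_pos`: `‖A k‖^2 ≤ ⟪k, A k⟫` (divide `res_firm` for `y + t k`, `y` by `t^2`, `t → 0`).
`cj_exp`: `cj f (y + k) = cj f y + ⟪R y, k⟫ + ⟪A k, k⟫ / 2 + o(|k|^2)`: the function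
`g k = cj f (y + k) - cj f y - ⟪R y, k⟫ - ⟪A k, k⟫/2` has derivative `innerSL (R (y+k) - R y - A k)` (`A` symmetric),
norm `≤ ε |k|` for `|k| < δ`; the mean value inequality on the ball gives `|g k| ≤ ε |k|^2`. -/

namespace Pool.Agent.MP_4eca41.A

open Set Filter Topology Metric Asymptotics
open scoped RealInnerProductSpace

variable {E : Type*} [NormedAddCommGroup E] [InnerProductSpace ℝ E]

theorem res_symm [FiniteDimensional ℝ E] {f : E → ℝ} (hf : ConvexOn ℝ univ f) {y : E}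
    {A : E →L[ℝ] E} (hA : HasFDerivAt (res f) A y) (u v : E) : ⟪A u, v⟫ = ⟪u, A v⟫ := by
  let J : E →L[ℝ] E →L[ℝ] ℝ :=
    (isBoundedBilinearMap_inner (𝕜 := ℝ) (E := E)).toContinuousLinearMap
  have hJ : ∀ x z : E, J x z = ⟪x, z⟫ := fun x z => rfl
  have hJ' : ∀ x : E, innerSL ℝ x = J x := fun x => rfl
  have h1 : ∀ z, HasFDerivAt (cj f) (J (res f z)) z := fun z => by
    rw [← hJ']
    exact cj_grad hf z
  have h2 : HasFDerivAt (fun z => J (res f z)) (J.comp A) y := J.hasFDerivAt.comp y hA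
  have h3 := second_derivative_symmetric (𝕜 := ℝ) h1 h2 u v
  rw [ContinuousLinearMap.comp_apply, ContinuousLinearMap.comp_apply, hJ, hJ] at h3
  rw [h3, real_inner_comm]

theorem res_pos [FiniteDimensional ℝ E] {f : E → ℝ} (hf : ConvexOn ℝ univ f) {y : E}
    {A : E →L[ℝ] E} (hA : HasFDerivAt (res f) A y) (u : E) : ‖A u‖ ^ 2 ≤ ⟪u, A u⟫ := by
  have h1 : Tendsto (fun t : ℝ => t⁻¹ • (res f (y + t • u) - res f y)) (𝓝[≠] 0) (𝓝 (A u)) :=
    (hA.hasLineDerivAt u).tendsto_slope_zero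
  have h2 : Tendsto (fun t : ℝ => ‖t⁻¹ • (res f (y + t • u) - res f y)‖ ^ 2) (𝓝[≠] 0)
      (𝓝 (‖A u‖ ^ 2)) := (h1.norm).pow 2
  have h3 : Tendsto (fun t : ℝ => ⟪u, t⁻¹ • (res f (y + t • u) - res f y)⟫) (𝓝[≠] 0)
      (𝓝 ⟪u, A u⟫) := tendsto_const_nhds.inner h1
  refine le_of_tendsto_of_tendsto h2 h3 ?_
  filter_upwards [self_mem_nhdsWithin] with t ht
  have ht0 : t ≠ 0 := ht
  have h4 := res_firm hf (y + t • u) y
  rw [add_sub_cancel_left, real_inner_smul_left] at h4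
  rw [norm_smul, mul_pow, real_inner_smul_right, Real.norm_eq_abs, abs_inv, inv_pow, sq_abs]
  have h5 : 0 < t ^ 2 := by positivity
  rw [inv_mul_le_iff₀ h5]
  calc ‖res f (y + t • u) - res f y‖ ^ 2 ≤ t * ⟪u, res f (y + t • u) - res f y⟫ := h4
    _ = t ^ 2 * (t⁻¹ * ⟪u, res f (y + t • u) - res f y⟫) := by
      field_simp

theorem cj_exp [FiniteDimensional ℝ E] {f : E → ℝ} (hf : ConvexOn ℝ univ f) {y : E}
    {A : E →L[ℝ] E} (hA : HasFDerivAt (res f) A y) :
    (fun k => cj f (y + k) - cj f y - ⟪res f y, k⟫ - ⟪A k, k⟫ / 2) =o[𝓝 0]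
      (fun k => ‖k‖ ^ 2) := by
  set g : E → ℝ := fun k => cj f (y + k) - cj f y - ⟪res f y, k⟫ - ⟪A k, k⟫ / 2 with hg
  have hd : ∀ k, HasFDerivAt g (innerSL ℝ (res f (y + k) - res f y - A k)) k := by
    intro k
    have d1 : HasFDerivAt (fun k => cj f (y + k)) (innerSL ℝ (res f (y + k))) k := by
      have := (cj_grad hf (y + k)).comp k ((hasFDerivAt_id k).const_add y)
      rwa [ContinuousLinearMap.comp_id] at this
    have d2 : HasFDerivAt (fun k : E => ⟪res f y, k⟫) (innerSL ℝ (res f y)) k :=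
      (innerSL ℝ (res f y)).hasFDerivAt
    have d3 := (A.hasFDerivAt (x := k)).inner ℝ (hasFDerivAt_id k)
    have d4 := ((d1.sub_const (cj f y)).sub d2).sub (d3.mul_const (1 / 2 : ℝ))
    refine (d4.congr_of_eventuallyEq (Eventually.of_forall fun k => ?_)).congr_fderiv ?_
    · show cj f (y + k) - cj f y - ⟪res f y, k⟫ - ⟪A k, k⟫ / 2 =
        cj f (y + k) - cj f y - ⟪res f y, k⟫ - ⟪A k, k⟫ * (1 / 2)
      ring
    · ext h
      have h1 := res_symm hf hA h k
      have h2 : ⟪h, A k⟫ = ⟪A k, h⟫ := real_inner_comm _ _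
      simp only [ContinuousLinearMap.sub_apply, ContinuousLinearMap.smul_apply,
        ContinuousLinearMap.comp_apply, ContinuousLinearMap.prod_apply, fderivInnerCLM_apply,
        ContinuousLinearMap.id_apply, innerSL_apply_apply, inner_sub_left, smul_eq_mul, id]
      rw [h1, h2]
      ring
  have hg0 : g 0 = 0 := by
    simp [hg]
  rw [isLittleO_iff]
  intro ε hε
  have h1 : (fun k => res f (y + k) - res f y - A k) =o[𝓝 0] fun k => k := by
    have := hasFDerivAt_iff_isLittleO_nhds_zero.1 hA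
    exact this
  rw [isLittleO_iff] at h1
  obtain ⟨δ, hδ, h2⟩ := Metric.eventually_nhds_iff_ball.1 (h1 hε)
  refine Metric.eventually_nhds_iff_ball.2 ⟨δ, hδ, fun k hk => ?_⟩
  have hk' : ‖k‖ < δ := by simpa using hk
  have h3 : ‖g k - g 0‖ ≤ ε * ‖k‖ * ‖k - 0‖ := by
    refine (convex_closedBall (0 : E) ‖k‖).norm_image_sub_le_of_norm_hasFDerivWithin_le
      (f' := fun k => innerSL ℝ (res f (y + k) - res f y - A k))
      (fun z _ => (hd z).hasFDerivWithinAt) (fun z hz => ?_) ?_ ?_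
    · have hz' : ‖z‖ ≤ ‖k‖ := by simpa using hz
      have h4 := h2 z (by simpa using lt_of_le_of_lt hz' hk')
      rw [innerSL_apply_norm]
      exact h4.trans (mul_le_mul_of_nonneg_left hz' hε.le)
    · simp
    · simp
  rw [hg0, sub_zero, sub_zero] at h3
  calc ‖g k‖ ≤ ε * ‖k‖ * ‖k‖ := h3
    _ = ε * ‖‖k‖ ^ 2‖ := by
      rw [norm_pow, norm_norm]
      ring

end Pool.Agent.MP_4eca41.A
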